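import Pool.Agent.Helper5_DF7.Inst
import Pool.Agent.Helper64_DF7.Maps
import Pool.Agent.Helper64_DF7.ZEmb

/-!
# MP_df7fe8_co: assembly
-/

set_option autoImplicit false

namespace Pool.Agent.Helper5_DF7

open Set Pool.Agent.SMZ Cardinal OrderDual

universe u v w

/-! ## sums of copies of the integers over a chain `J` -/

theorem E1_lex {J : Type*} [PartialOrder J] (i : ℕ → J) (hi : StrictMono i) : E1 (J ×ₗ ℤ) := by
  refine ⟨_, lexmono (fun (k : ℕ) (m : ℕᵒᵈ) => (toLex (i k, -((ofDual m : ℕ) : ℤ)) : J ×ₗ ℤ))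
    ?_ ?_⟩
  · intro k a b hab
    have h1 : (ofDual b : ℕ) < ofDual a := hab
    rw [Prod.Lex.toLex_lt_toLex]
    refine Or.inr ⟨rfl, ?_⟩
    dsimp only
    omega
  · intro k k' a b hk
    rw [Prod.Lex.toLex_lt_toLex]
    exact Or.inl (hi hk)

theorem E2_lex {J : Type*} [PartialOrder J] (i : ℕ → J) (hi : StrictAnti i) : E2 (J ×ₗ ℤ) := by
  refine ⟨_, lexmono (fun (k : ℕᵒᵈ) (m : ℕ) => (toLex (i (ofDual k), (m : ℤ)) : J ×ₗ ℤ))
    ?_ ?_⟩
  · intro k a b hab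
    rw [Prod.Lex.toLex_lt_toLex]
    refine Or.inr ⟨rfl, ?_⟩
    dsimp only
    omega
  · intro k k' a b hk
    rw [Prod.Lex.toLex_lt_toLex]
    exact Or.inl (hi hk)

/-- infinitely many copies of the integers are always enough -/
theorem infinite_enough {L : Type*} [Lattice L] (hL : LocChainBdd L) (J : Type*) [LinearOrder J]
    [Infinite J] : ∃ f : L → J ×ₗ ℤ, StrictMono f := by
  rcases seq_of_infinite (Set.infinite_univ (α := J)) with ⟨i, hi, -⟩ | ⟨i, hi, -⟩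
  · obtain ⟨f, hf⟩ := Helper64_DF7.enough1 hL
    obtain ⟨g, hg⟩ := E1_lex i hi
    exact ⟨g ∘ f, hg.comp hf⟩
  · obtain ⟨f, hf⟩ := Helper64_DF7.enough2 hL
    obtain ⟨g, hg⟩ := E2_lex i hi
    exact ⟨g ∘ f, hg.comp hf⟩

/-- a finite sum of copies of the integers -/
theorem finite_lex {J : Type*} [LinearOrder J] [Finite J] :
    ∃ (k : ℕ) (g : J ×ₗ ℤ → Fin k ×ₗ ℤ), StrictMono g := by
  classical
  have := Fintype.ofFinite J
  have e : Fin (Fintype.card J) ≃o J := Fintype.orderIsoFinOfCardEq J rfl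
  refine ⟨Fintype.card J, _, lexmono
    (fun (j : J) (m : ℤ) => (toLex (e.symm j, m) : Fin (Fintype.card J) ×ₗ ℤ)) ?_ ?_⟩
  · intro j a b hab
    rw [Prod.Lex.toLex_lt_toLex]
    exact Or.inr ⟨rfl, hab⟩
  · intro j j' a b hj
    rw [Prod.Lex.toLex_lt_toLex]
    exact Or.inl (e.symm.strictMono hj)

/-! ## cardinals -/

theorem mk_finset_le {A : Type u} {c : Cardinal.{u}} (hc : ℵ₀ ≤ c) (hA : #A ≤ c) :
    #(Finset A) ≤ c := by
  rcases finite_or_infinite A with h | h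
  · exact ((Cardinal.lt_aleph0_iff_finite).2 inferInstance).le.trans hc
  · rw [Cardinal.mk_finset_of_infinite]
    exact hA

theorem mk_prod_le {A B : Type u} {c : Cardinal.{u}} (hc : ℵ₀ ≤ c) (hA : #A ≤ c) (hB : #B ≤ c) :
    #(A × B) ≤ c := by
  rw [Cardinal.mk_prod, Cardinal.lift_id, Cardinal.lift_id]
  exact (mul_le_mul' hA hB).trans (Cardinal.mul_eq_self hc).le

theorem mk_LL_le {M : Type u} [Lattice M] (p : Pent M) {X Y : Type u} (n : X → Y → ℕ)
    {c : Cardinal.{u}} (hc : ℵ₀ ≤ c) (hX : #X ≤ c) (hY : #Y ≤ c) : #(LL p n) ≤ c := by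
  have h1 : ∀ z : LL p n, ∃ t : Finset X × Finset Y × Finset (X × Y × ULift.{u} ℕ),
      (z : X × Y × ℕ → M) = valf p t.1 t.2.1 (t.2.2.map
        ⟨fun q => (q.1, q.2.1, q.2.2.down), by
          rintro ⟨a, b, ⟨d⟩⟩ ⟨a', b', ⟨d'⟩⟩ h
          simp only [Prod.mk.injEq] at h
          obtain ⟨rfl, rfl, rfl⟩ := h
          rfl⟩) := by
    classical
    intro z
    obtain ⟨G, F, hz⟩ := z.2
    obtain ⟨T, -, hT⟩ := eq_valf p n hz
    refine ⟨(G, F, T.map ⟨fun q => (q.1, q.2.1, ULift.up q.2.2), by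
          rintro ⟨a, b, d⟩ ⟨a', b', d'⟩ h
          simp only [Prod.mk.injEq, ULift.up_inj] at h
          obtain ⟨rfl, rfl, rfl⟩ := h
          rfl⟩), ?_⟩
    rw [hT, Finset.map_map]
    congr 1
    ext q
    simp
  choose t ht using h1
  have hinj : Function.Injective t := by
    intro z w h
    apply Subtype.ext
    rw [ht z, ht w, h]
  have h3 : #(X × Y × ULift.{u} ℕ) ≤ c :=
    mk_prod_le hc hX (mk_prod_le hc hY (by simpa using hc))
  exact (Cardinal.mk_le_of_injective hinj).trans (mk_prod_le hc (mk_finset_le hc hX)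
    (mk_prod_le hc (mk_finset_le hc hY) (mk_finset_le hc h3)))

/-- a coinitial subset of size at most `κ` -/
def Coin (κ : Cardinal.{u}) (L : Type u) [PartialOrder L] : Prop :=
  ∃ D : Set L, #D ≤ κ ∧ ∀ x, ∃ d ∈ D, d ≤ x

/-- a cofinal subset of size at most `κ` -/
def Cofi (κ : Cardinal.{u}) (L : Type u) [PartialOrder L] : Prop :=
  ∃ D : Set L, #D ≤ κ ∧ ∀ x, ∃ d ∈ D, x ≤ d

theorem coin_LL {M : Type u} [Lattice M] (p : Pent M) {X Y : Type u} (n : X → Y → ℕ)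
    {c : Cardinal.{u}} (hc : ℵ₀ ≤ c) (hX : #X ≤ c) : Coin c (LL p n) := by
  refine ⟨Set.range (lowE p n), Cardinal.mk_range_le.trans (mk_finset_le hc hX), fun z => ?_⟩
  obtain ⟨G, hG⟩ := exists_lowE_le p n z
  exact ⟨_, ⟨G, rfl⟩, hG⟩

theorem cofi_LL {M : Type u} [Lattice M] (p : Pent M) {X Y : Type u} (n : X → Y → ℕ)
    {c : Cardinal.{u}} (hc : ℵ₀ ≤ c) (hY : #Y ≤ c) : Cofi c (LL p n) := by
  refine ⟨Set.range (SMZ.upE p n), Cardinal.mk_range_le.trans (mk_finset_le hc hY), fun z => ?_⟩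
  obtain ⟨G, hG⟩ := exists_le_upE p n z
  exact ⟨_, ⟨G, rfl⟩, hG⟩

theorem unbounded_infinite {I : Type u} (φ : I → ℕ → ℕ)
    (h : ¬ ∃ g : ℕ → ℕ, ∀ i, ∀ᶠ n in Filter.atTop, φ i n ≤ g n) : ℵ₀ < #I := by
  by_contra hcon
  rw [not_lt, Cardinal.mk_le_aleph0_iff] at hcon
  obtain ⟨g, hg⟩ := countable_bound φ
  exact h ⟨g, fun i => Filter.eventually_atTop.2 (hg i)⟩

/-- one lattice with finite intervals, of size at most `b`, which has no strictly monotone map into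
any finite sum of copies of the integers -/
theorem bad_fin {M : Type u} [Lattice M] (hM : ¬ IsModularLattice M) {κ μ : Cardinal.{u}}
    (hκ : ℵ₀ ≤ κ) (hμ : ℵ₀ ≤ μ) (h : bnum.{u} ≤ max κ μ) :
    ∃ (I : Type u) (S : Sublattice (I → M)), (∀ x y : S, (Set.Icc x y).Finite) ∧
      #S ≤ bnum.{u} ∧ Coin κ S ∧ Cofi μ S ∧
      ∀ (k : ℕ) (f : S → Fin k ×ₗ ℤ), ¬ StrictMono f := by
  obtain ⟨p⟩ := exists_pent hM
  obtain ⟨I, φ, hI, hφ⟩ := SMZ.exists_unbounded.{u}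
  have hinf := unbounded_infinite φ hφ
  have hb : ℵ₀ ≤ bnum.{u} := by rw [← hI]; exact hinf.le
  have : Infinite I := Cardinal.infinite_iff.2 hinf.le
  have hN : #(ULift.{u} ℕ) ≤ ℵ₀ := by simp
  rcases le_max_iff.1 h with h1 | h1
  · let n : I → ULift.{u} ℕ → ℕ := fun i k => φ i k.down
    refine ⟨I × ULift.{u} ℕ × ℕ, LL p n, fun x y => finite_Icc p n x y, mk_LL_le p n hb hI.le
      (hN.trans hb), coin_LL p n hκ (hI.le.trans h1), cofi_LL p n hμ (hN.trans hμ), ?_⟩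
    intro k f hf
    exact no_fin_LL' p n hφ k f hf
  · let n : ULift.{u} ℕ → I → ℕ := fun k i => φ i k.down
    refine ⟨ULift.{u} ℕ × I × ℕ, LL p n, fun x y => finite_Icc p n x y, mk_LL_le p n hb
      (hN.trans hb) hI.le, coin_LL p n hκ (hN.trans hκ), cofi_LL p n hμ (hI.le.trans h1), ?_⟩
    intro k f hf
    exact no_fin_LL p n hφ k f hf

end Pool.Agent.Helper5_DF7
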