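import Pool.Agent.Helper93_SMZ.Core

/-!
# MP_df7fe8_co: functions of two variables which are not dominated by a sum
-/

set_option autoImplicit false

namespace Pool.Agent.Helper5_DF7.Bad

open Cardinal Set Pool.Agent.SMZ

universe u

theorem nosum_omega {W : Type u} [LinearOrder W] (hW : ¬ (Set.univ : Set W).Countable)
    (hI : ∀ w : W, (Set.Iic w).Countable) :
    ∃ n : W → W → ℕ, ¬ ∃ g h : W → ℕ, ∀ x y, n x y ≤ g x + h y := by
  have h1 : ∀ w : W, ∃ f : W → ℕ, InjOn f (Set.Iic w) := fun w =>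
    Set.countable_iff_exists_injOn.1 (hI w)
  choose e he using h1
  refine ⟨fun v w => e w v, ?_⟩
  rintro ⟨g, g', hg⟩
  -- an uncountable fibre of g
  obtain ⟨n, hn⟩ : ∃ n, ¬ {v | g v = n}.Countable := by
    by_contra hcon
    push Not at hcon
    apply hW
    have h2 : (Set.univ : Set W) = ⋃ n, {v | g v = n} := by
      ext v
      simp
    rw [h2]
    exact Set.countable_iUnion hcon
  have hinf : {v | g v = n}.Infinite := fun h => hn h.countable
  let s : ℕ → W := fun k => (hinf.natEmbedding {v | g v = n} k : W)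
  have hs : Function.Injective s := fun i j hij =>
    (hinf.natEmbedding {v | g v = n}).injective (Subtype.ext hij)
  have hsg : ∀ k, g (s k) = n := fun k => (hinf.natEmbedding {v | g v = n} k).2
  obtain ⟨w, hw⟩ : ∃ w, ∀ k, s k ≤ w := by
    by_contra hcon
    push Not at hcon
    apply hW
    have h2 : (Set.univ : Set W) = ⋃ k, Set.Iic (s k) := by
      ext v
      obtain ⟨k, hk⟩ := hcon v
      simp only [Set.mem_univ, Set.mem_iUnion, Set.mem_Iic, true_iff]
      exact ⟨k, hk.le⟩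
    rw [h2]
    exact Set.countable_iUnion (fun k => hI (s k))
  have h3 : ∀ k, e w (s k) ∈ Set.Iic (n + g' w) := by
    intro k
    have h5 := hg (s k) w
    rw [hsg] at h5
    exact h5
  have h4 : Function.Injective (fun k => e w (s k)) := fun i j hij =>
    hs (he w (hw i) (hw j) hij)
  exact Set.infinite_of_injective_forall_mem h4 h3 (Set.finite_Iic _)

/-- the function on a set of size `aleph 1` -/
theorem bad_omega1 : ∃ (Ω : Type u) (n : Ω → Ω → ℕ), Infinite Ω ∧ Cardinal.mk Ω = Cardinal.aleph 1 ∧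
    ¬ ∃ g h : Ω → ℕ, ∀ x y, n x y ≤ g x + h y := by
  let W : Type u := (ℵ₁ : Cardinal.{u}).ord.ToType
  have hWc : #W = ℵ₁ := Cardinal.mk_ord_toType _
  have hI : ∀ w : W, (Set.Iic w).Countable := by
    intro w
    have h1 : #(Set.Iio w) < ℵ₁ := Cardinal.mk_Iio_toType_ord_lt w
    have h2 : (Set.Iio w).Countable :=
      Cardinal.le_aleph0_iff_set_countable.1 (Cardinal.lt_aleph_one_iff.1 h1)
    rw [← Set.Iio_union_right]
    exact h2.union (Set.countable_singleton w)
  have hW : ¬ (Set.univ : Set W).Countable := by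
    rw [← Cardinal.le_aleph0_iff_set_countable, Cardinal.mk_univ, hWc, not_le]
    exact Cardinal.aleph0_lt_aleph_one
  have hinf : Infinite W := by
    rw [Cardinal.infinite_iff, hWc]
    exact Cardinal.aleph0_lt_aleph_one.le
  obtain ⟨n, hn⟩ := nosum_omega hW hI
  exact ⟨W, n, hinf, hWc, hn⟩

/-- the function for an unbounded family -/
theorem bad_b (lam : Cardinal.{u}) (h0 : Cardinal.aleph0 ≤ lam) (hb : bnum.{u} ≤ lam) :
    ∃ (Y : Type u) (n : ULift.{u} ℕ → Y → ℕ), Infinite Y ∧ Cardinal.mk Y ≤ lam ∧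
      ¬ ∃ (g : ULift.{u} ℕ → ℕ) (h : Y → ℕ), ∀ x y, n x y ≤ g x + h y := by
  obtain ⟨I, φ, hI, hφ⟩ := exists_unbounded.{u}
  refine ⟨ULift.{u} ℕ ⊕ I, fun x y => Sum.elim (fun _ => 0) (fun i => φ i x.down) y, ?_, ?_, ?_⟩
  · infer_instance
  · rw [Cardinal.mk_sum, Cardinal.lift_id, Cardinal.lift_id, hI]
    refine (add_le_add ?_ hb).trans (Cardinal.add_eq_self h0).le
    rw [Cardinal.mk_uLift, Cardinal.mk_nat, Cardinal.lift_aleph0]
    exact h0
  · rintro ⟨g, h, hg⟩
    apply hφ
    refine ⟨fun n => g ⟨n⟩ + n, fun i => ?_⟩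
    filter_upwards [Filter.eventually_ge_atTop (h (Sum.inr i))] with n hn
    have h1 := hg ⟨n⟩ (Sum.inr i)
    have h2 : φ i n ≤ g ⟨n⟩ + h (Sum.inr i) := h1
    omega

end Pool.Agent.Helper5_DF7.Bad
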