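import Mathlib

/-!
# MP_df7fe8_co: chain lengths of intervals, the criterion, the positive results
-/

set_option autoImplicit false

namespace Pool.Agent.Helper5_DF7

open Cardinal Set

/-- property (b): every chain contained in an interval `[x, y]` has at most `n(x, y)` elements -/
def LocBdd (L : Type*) [PartialOrder L] : Prop :=
  ∀ x y : L, x ≤ y → ∃ n : ℕ, ∀ s : Set L, IsChain (· ≤ ·) s → s ⊆ Icc x y → s.encard ≤ n

/-- the least size of a coinitial subset -/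
noncomputable def coinit (L : Type) [PartialOrder L] : Cardinal.{0} :=
  sInf {κ | ∃ D : Set L, #D = κ ∧ ∀ x, ∃ d ∈ D, d ≤ x}

/-- the least size of a cofinal subset -/
noncomputable def cofin (L : Type) [PartialOrder L] : Cardinal.{0} :=
  sInf {κ | ∃ D : Set L, #D = κ ∧ ∀ x, ∃ d ∈ D, x ≤ d}

/-- the bounding number: the least size of a family of functions which is not bounded by one
function modulo finite sets -/
noncomputable def bounding : Cardinal.{0} :=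
  sInf {κ | ∃ F : Set (ℕ → ℕ), #F = κ ∧ ∀ g : ℕ → ℕ, ∃ f ∈ F, ∀ m : ℕ, ∃ n ≥ m, g n < f n}

section basic
variable {L : Type*} [PartialOrder L]

/-- finite chains in the interval -/
def Ch (x y : L) (s : Finset L) : Prop := IsChain (· ≤ ·) (s : Set L) ∧ ∀ z ∈ s, x ≤ z ∧ z ≤ y

/-- the maximal number of elements of a chain in `[x, y]` -/
noncomputable def hh (x y : L) : ℕ := sSup {n | ∃ s : Finset L, Ch x y s ∧ s.card = n}

theorem ch_bdd (hb : LocBdd L) (x y : L) : BddAbove {n | ∃ s : Finset L, Ch x y s ∧ s.card = n} := by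
  by_cases hxy : x ≤ y
  · obtain ⟨n, hn⟩ := hb x y hxy
    refine ⟨n, ?_⟩
    rintro m ⟨s, hs, rfl⟩
    have h1 := hn (s : Set L) hs.1 (fun z hz => hs.2 z hz)
    rw [Set.encard_coe_eq_coe_finsetCard] at h1
    exact_mod_cast h1
  · refine ⟨0, ?_⟩
    rintro m ⟨s, hs, rfl⟩
    have : s = ∅ := by
      rw [Finset.eq_empty_iff_forall_notMem]
      intro z hz
      exact hxy ((hs.2 z hz).1.trans (hs.2 z hz).2)
    rw [this, Finset.card_empty]

theorem ch_empty (x y : L) : Ch x y (∅ : Finset L) :=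
  ⟨by simp, fun z hz => absurd hz (Finset.notMem_empty z)⟩

theorem card_le_hh (hb : LocBdd L) {x y : L} {s : Finset L} (hs : Ch x y s) : s.card ≤ hh x y :=
  le_csSup (ch_bdd hb x y) ⟨s, hs, rfl⟩

theorem hh_mem (hb : LocBdd L) (x y : L) : ∃ s : Finset L, Ch x y s ∧ s.card = hh x y := by
  have h : {n | ∃ s : Finset L, Ch x y s ∧ s.card = n}.Nonempty :=
    ⟨0, ∅, ch_empty x y, Finset.card_empty⟩
  exact Nat.sSup_mem h (ch_bdd hb x y)

theorem hh_mono (hb : LocBdd L) {x x' y y' : L} (hx : x' ≤ x) (hy : y ≤ y') :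
    hh x y ≤ hh x' y' := by
  obtain ⟨s, hs, hc⟩ := hh_mem hb x y
  rw [← hc]
  exact card_le_hh hb ⟨hs.1, fun z hz => ⟨hx.trans (hs.2 z hz).1, (hs.2 z hz).2.trans hy⟩⟩

theorem hh_right (hb : LocBdd L) {x y y' : L} (hxy : x ≤ y) (hy : y < y') :
    hh x y + 1 ≤ hh x y' := by
  classical
  obtain ⟨s, hs, hc⟩ := hh_mem hb x y
  have hn : y' ∉ s := fun h => absurd ((hs.2 y' h).2) (not_le_of_gt hy)
  rw [← hc, ← Finset.card_insert_of_notMem hn]
  refine card_le_hh hb ⟨?_, ?_⟩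
  · rw [Finset.coe_insert]
    refine hs.1.insert (fun z hz _ => Or.inr ((hs.2 z hz).2.trans hy.le))
  · intro z hz
    rcases Finset.mem_insert.1 hz with h | h
    · rw [h]
      exact ⟨hxy.trans hy.le, le_rfl⟩
    · exact ⟨(hs.2 z h).1, (hs.2 z h).2.trans hy.le⟩

theorem hh_left (hb : LocBdd L) {x x' y : L} (hx : x' < x) (hxy : x ≤ y) :
    hh x y + 1 ≤ hh x' y := by
  classical
  obtain ⟨s, hs, hc⟩ := hh_mem hb x y
  have hn : x' ∉ s := fun h => absurd ((hs.2 x' h).1) (not_le_of_gt hx)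
  rw [← hc, ← Finset.card_insert_of_notMem hn]
  refine card_le_hh hb ⟨?_, ?_⟩
  · rw [Finset.coe_insert]
    refine hs.1.insert (fun z hz _ => Or.inl (hx.le.trans (hs.2 z hz).1))
  · intro z hz
    rcases Finset.mem_insert.1 hz with h | h
    · rw [h]
      exact ⟨le_rfl, hx.le.trans hxy⟩
    · exact ⟨hx.le.trans (hs.2 z h).1, (hs.2 z h).2⟩

/-- the criterion -/
theorem crit (hb : LocBdd L) (g : L → ℕ) (hg : ∀ x y, x ≤ y → hh x y ≤ g x + g y) :
    ∃ f : L → ℤ, StrictMono f := by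
  have hne : ∀ x : L, {m : ℤ | ∃ y ≤ x, m = (hh y x : ℤ) - g y}.Nonempty :=
    fun x => ⟨_, x, le_rfl, rfl⟩
  have hbd : ∀ x : L, BddAbove {m : ℤ | ∃ y ≤ x, m = (hh y x : ℤ) - g y} := by
    intro x
    refine ⟨(g x : ℤ), ?_⟩
    rintro m ⟨y, hy, rfl⟩
    have := hg y x hy
    omega
  refine ⟨fun x => sSup {m : ℤ | ∃ y ≤ x, m = (hh y x : ℤ) - g y}, ?_⟩
  intro x x' hx
  obtain ⟨y, hy, he⟩ := Int.csSup_mem (hne x) (hbd x)
  have h1 := le_csSup (hbd x') ⟨y, hy.trans hx.le, rfl⟩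
  have h2 := hh_right hb hy hx
  dsimp only
  rw [he]
  omega

end basic

/-- **the lexicographic theorem** -/
theorem lex {L : Type*} [SemilatticeInf L] (hb : LocBdd L) : ∃ f : L → ℤ ×ₗ ℤ, StrictMono f := by
  rcases isEmpty_or_nonempty L with hL | ⟨⟨x0⟩⟩
  · exact ⟨fun x => isEmptyElim x, fun x => isEmptyElim x⟩
  · refine ⟨fun y => toLex (-(hh (x0 ⊓ y) x0 : ℤ), (hh (x0 ⊓ y) y : ℤ)), ?_⟩
    intro y y' hy
    rw [Prod.Lex.toLex_lt_toLex]
    rcases (inf_le_inf_left x0 hy.le).lt_or_eq with h | h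
    · left
      have := hh_left hb h (inf_le_left : x0 ⊓ y' ≤ x0)
      dsimp only
      omega
    · right
      dsimp only
      rw [← h]
      refine ⟨rfl, ?_⟩
      have := hh_right hb (inf_le_right : x0 ⊓ y ≤ y) hy
      omega

/-- families smaller than the bounding number are bounded -/
theorem bdd_of_lt {F : Set (ℕ → ℕ)} (h : #F < bounding) :
    ∃ g : ℕ → ℕ, ∀ f ∈ F, ∃ c : ℕ, ∀ n, f n ≤ g n + c := by
  by_contra hcon
  have h1 : bounding ≤ #F := by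
    refine csInf_le' ⟨F, rfl, ?_⟩
    intro g
    by_contra h2
    push Not at h2
    apply hcon
    refine ⟨g, fun f hf => ?_⟩
    obtain ⟨m, hm⟩ := h2 f hf
    refine ⟨∑ k ∈ Finset.range m, f k, fun n => ?_⟩
    rcases Nat.lt_or_ge n m with h3 | h3
    · have := Finset.single_le_sum (f := f) (fun i _ => Nat.zero_le (f i)) (Finset.mem_range.2 h3)
      omega
    · have := hm n h3
      omega
  exact absurd h (not_lt_of_ge h1)

theorem exists_unbounded : ∃ F : Set (ℕ → ℕ), #F = bounding ∧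
    ∀ g : ℕ → ℕ, ∃ f ∈ F, ∀ m : ℕ, ∃ n ≥ m, g n < f n := by
  have h : {κ | ∃ F : Set (ℕ → ℕ), #F = κ ∧
      ∀ g : ℕ → ℕ, ∃ f ∈ F, ∀ m : ℕ, ∃ n ≥ m, g n < f n}.Nonempty :=
    ⟨_, Set.univ, rfl, fun g => ⟨fun n => g n + 1, Set.mem_univ _, fun m => ⟨m, le_rfl,
      Nat.lt_succ_self _⟩⟩⟩
  exact csInf_mem h

theorem coinit_spec (L : Type) [PartialOrder L] :
    ∃ D : Set L, #D = coinit L ∧ ∀ x, ∃ d ∈ D, d ≤ x := by
  have h : {κ | ∃ D : Set L, #D = κ ∧ ∀ x, ∃ d ∈ D, d ≤ x}.Nonempty :=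
    ⟨_, Set.univ, rfl, fun x => ⟨x, Set.mem_univ _, le_rfl⟩⟩
  exact csInf_mem h

theorem cofin_spec (L : Type) [PartialOrder L] :
    ∃ D : Set L, #D = cofin L ∧ ∀ x, ∃ d ∈ D, x ≤ d := by
  have h : {κ | ∃ D : Set L, #D = κ ∧ ∀ x, ∃ d ∈ D, x ≤ d}.Nonempty :=
    ⟨_, Set.univ, rfl, fun x => ⟨x, Set.mem_univ _, le_rfl⟩⟩
  exact csInf_mem h

/-- **the positive part** -/
theorem pos {L : Type} [Lattice L] (hb : LocBdd L) (h1 : coinit L ≤ ℵ₀)
    (h2 : cofin L < bounding) : ∃ f : L → ℤ, StrictMono f := by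
  rcases isEmpty_or_nonempty L with hL | hL
  · exact ⟨fun x => isEmptyElim x, fun x => isEmptyElim x⟩
  obtain ⟨Z, hZc, hZ⟩ := coinit_spec L
  obtain ⟨D, hDc, hD⟩ := cofin_spec L
  rw [← hZc, Cardinal.le_aleph0_iff_set_countable] at h1
  have hZne : Z.Nonempty := by
    obtain ⟨x⟩ := hL
    obtain ⟨d, hd, -⟩ := hZ x
    exact ⟨d, hd⟩
  obtain ⟨e, he⟩ := h1.exists_eq_range hZne
  obtain ⟨z, hz⟩ : ∃ z : ℕ → L, ∀ k, z k ≤ e k ∧ z (k + 1) ≤ z k := by
    refine ⟨fun k => Nat.rec (e 0) (fun k w => w ⊓ e (k + 1)) k, fun k => ⟨?_, inf_le_left⟩⟩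
    cases k with
    | zero => exact le_rfl
    | succ k => exact inf_le_right
  have hzc : ∀ x, ∃ k, z k ≤ x := by
    intro x
    obtain ⟨d, hd, hdx⟩ := hZ x
    rw [he] at hd
    obtain ⟨k, rfl⟩ := hd
    exact ⟨k, (hz k).1.trans hdx⟩
  have hF : #(Set.range (fun d : D => fun k : ℕ => hh (z k ⊓ (d : L)) (d : L))) < bounding := by
    refine lt_of_le_of_lt Cardinal.mk_range_le ?_
    rw [hDc]
    exact h2
  obtain ⟨ψ, hψ⟩ := bdd_of_lt hF
  have hψ' : ∀ d : D, ∃ c : ℕ, ∀ n, hh (z n ⊓ (d : L)) (d : L) ≤ ψ n + c :=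
    fun d => hψ _ ⟨d, rfl⟩
  choose c hc using hψ'
  choose kk hk using hzc
  choose dd hdD hdx using hD
  refine crit hb (fun x => ψ (kk x) + c ⟨dd x, hdD x⟩) ?_
  intro x y hxy
  have h3 : hh x y ≤ hh (z (kk x) ⊓ dd y) (dd y) :=
    hh_mono hb (inf_le_left.trans (hk x)) (hdx y)
  have h4 := hc ⟨dd y, hdD y⟩ (kk x)
  dsimp only at h4 ⊢
  omega

end Pool.Agent.Helper5_DF7
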