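import Pool.Agent.Helper5_DF7.NoFin

/-!
# MP_df7fe8_co: the chains which are enough, abstract part
-/

set_option autoImplicit false

namespace Pool.Agent.Helper5_DF7

open Set OrderDual

/-- `ω` copies of `ω*` -/
def E1 (C : Type*) [Preorder C] : Prop := ∃ f : ℕ ×ₗ ℕᵒᵈ → C, StrictMono f
/-- `ω*` copies of `ω` -/
def E2 (C : Type*) [Preorder C] : Prop := ∃ f : ℕᵒᵈ ×ₗ ℕ → C, StrictMono f
/-- `(ω²)* + ω²` -/
def E3 (C : Type*) [Preorder C] : Prop :=
  ∃ f : (ℕᵒᵈ ×ₗ ℕᵒᵈ) ⊕ₗ (ℕ ×ₗ ℕ) → C, StrictMono f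

theorem lexmono {A B C : Type*} [PartialOrder A] [Preorder B] [Preorder C] (g : A → B → C)
    (h1 : ∀ a, StrictMono (g a)) (h2 : ∀ a a' b b', a < a' → g a b < g a' b') :
    StrictMono (fun x : A ×ₗ B => g (ofLex x).1 (ofLex x).2) := by
  intro x y hxy
  rw [Prod.Lex.lt_iff] at hxy
  rcases hxy with h | ⟨h, h'⟩
  · exact h2 _ _ _ _ h
  · dsimp only
    rw [h]
    exact h1 _ h'

theorem seq_of_infinite {C : Type*} [LinearOrder C] {S : Set C} (hS : S.Infinite) :
    (∃ s : ℕ → C, StrictMono s ∧ ∀ n, s n ∈ S) ∨ (∃ s : ℕ → C, StrictAnti s ∧ ∀ n, s n ∈ S) := by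
  obtain ⟨e⟩ : Nonempty (ℕ ↪ S) := ⟨hS.natEmbedding⟩
  obtain ⟨g, hg⟩ := exists_increasing_or_nonincreasing_subseq (· < ·) (fun n => (e n : C))
  rcases hg with hg | hg
  · exact Or.inl ⟨fun n => e (g n),
      strictMono_nat_of_lt_succ (fun n => hg n (n + 1) (Nat.lt_succ_self n)), fun n => (e (g n)).2⟩
  · refine Or.inr ⟨fun n => e (g n), strictAnti_nat_of_succ_lt (fun n => ?_),
      fun n => (e (g n)).2⟩
    refine lt_of_le_of_ne (not_lt.1 (hg n (n + 1) (Nat.lt_succ_self n))) ?_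
    intro h
    have h1 := e.injective (Subtype.ext h)
    have h2 := g.injective h1
    omega

theorem lt_of_Icc_infinite {C : Type*} [LinearOrder C] {a b : C} (h : (Icc a b).Infinite) :
    a < b := by
  by_contra hcon
  refine h ((Set.finite_singleton a).subset ?_)
  intro x hx
  exact le_antisymm (hx.2.trans (not_lt.1 hcon)) hx.1

theorem Ioo_infinite {C : Type*} [LinearOrder C] {a b : C} (h : (Icc a b).Infinite) :
    (Ioo a b).Infinite := by
  intro hf
  refine h ((hf.union (Set.toFinite {a, b})).subset ?_)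
  intro x hx
  rcases hx.1.lt_or_eq with h1 | h1
  · rcases hx.2.lt_or_eq with h2 | h2
    · exact Or.inl ⟨h1, h2⟩
    · right
      rw [h2]
      simp
  · right
    rw [← h1]
    simp

/-- blocks above `q 0` -/
theorem half {C : Type*} [LinearOrder C] (q : ℕ → C)
    (hq : ∀ k, (Icc (q k) (q (k + 1))).Infinite) :
    E1 C ∨ ∃ g : ℕ → ℕ → C, (∀ k, StrictMono (g k)) ∧ (∀ k k' i j, k < k' → g k i < g k' j) ∧
      ∀ k i, q 0 < g k i := by
  have hmono : StrictMono q := strictMono_nat_of_lt_succ (fun k => lt_of_Icc_infinite (hq k))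
  by_cases hfr : ∃ᶠ k in Filter.atTop, ∃ s : ℕ → C, StrictAnti s ∧ ∀ n, s n ∈ Ioo (q k) (q (k + 1))
  · left
    obtain ⟨φ, hφ, hs⟩ := Filter.extraction_of_frequently_atTop hfr
    choose s hs1 hs2 using hs
    refine ⟨_, lexmono (fun k (i : ℕᵒᵈ) => s k (ofDual i)) ?_ ?_⟩
    · intro k i j hij
      exact hs1 k hij
    · intro k k' i j hk
      have h1 := (hs2 k (ofDual i)).2
      have h2 := (hs2 k' (ofDual j)).1
      have h3 : q (φ k + 1) ≤ q (φ k') := hmono.monotone (hφ hk)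
      exact h1.trans (lt_of_le_of_lt h3 h2)
  · right
    rw [Filter.not_frequently, Filter.eventually_atTop] at hfr
    obtain ⟨N, hN⟩ := hfr
    have h0 : ∀ k, ∃ s : ℕ → C, StrictMono s ∧ ∀ n, s n ∈ Ioo (q (k + N)) (q (k + N + 1)) := by
      intro k
      rcases seq_of_infinite (Ioo_infinite (hq (k + N))) with h | h
      · exact h
      · exact absurd h (hN (k + N) (by omega))
    choose s hs1 hs2 using h0
    refine ⟨s, hs1, ?_, ?_⟩
    · intro k k' i j hk
      have h1 := (hs2 k i).2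
      have h2 := (hs2 k' j).1
      have h3 : q (k + N + 1) ≤ q (k' + N) := hmono.monotone (by omega)
      exact h1.trans (lt_of_le_of_lt h3 h2)
    · intro k i
      exact lt_of_le_of_lt (hmono.monotone (Nat.zero_le _)) (hs2 k i).1

theorem E2_of_dual {C : Type*} [Preorder C] (h : E1 Cᵒᵈ) : E2 C := by
  obtain ⟨f, hf⟩ := h
  refine ⟨_, lexmono (fun (k : ℕᵒᵈ) (i : ℕ) => ofDual (f (toLex (ofDual k, toDual i)))) ?_ ?_⟩
  · intro k i j hij
    have : (toLex (ofDual k, toDual j) : ℕ ×ₗ ℕᵒᵈ) < toLex (ofDual k, toDual i) := by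
      rw [Prod.Lex.toLex_lt_toLex]
      exact Or.inr ⟨rfl, hij⟩
    exact hf this
  · intro k k' i j hk
    have : (toLex (ofDual k', toDual j) : ℕ ×ₗ ℕᵒᵈ) < toLex (ofDual k, toDual i) := by
      rw [Prod.Lex.toLex_lt_toLex]
      exact Or.inl hk
    exact hf this

theorem E1_of_dual {C : Type*} [Preorder C] (h : E2 Cᵒᵈ) : E1 C := by
  obtain ⟨f, hf⟩ := h
  refine ⟨_, lexmono (fun (k : ℕ) (i : ℕᵒᵈ) => ofDual (f (toLex (toDual k, ofDual i)))) ?_ ?_⟩
  · intro k i j hij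
    have : (toLex (toDual k, ofDual j) : ℕᵒᵈ ×ₗ ℕ) < toLex (toDual k, ofDual i) := by
      rw [Prod.Lex.toLex_lt_toLex]
      exact Or.inr ⟨rfl, hij⟩
    exact hf this
  · intro k k' i j hk
    have : (toLex (toDual k', ofDual j) : ℕᵒᵈ ×ₗ ℕ) < toLex (toDual k, ofDual i) := by
      rw [Prod.Lex.toLex_lt_toLex]
      exact Or.inl hk
    exact hf this

theorem final {C : Type*} [LinearOrder C] (q p : ℕ → C)
    (hq : ∀ k, (Icc (q k) (q (k + 1))).Infinite) (hp : ∀ k, (Icc (p (k + 1)) (p k)).Infinite)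
    (h : p 0 ≤ q 0) : E1 C ∨ E2 C ∨ E3 C := by
  rcases half q hq with h1 | ⟨g, hg1, hg2, hg3⟩
  · exact Or.inl h1
  have hp' : ∀ k, (Icc (toDual (p k)) (toDual (p (k + 1)))).Infinite := by
    intro k hf
    refine hp k (hf.subset ?_)
    intro x hx
    exact ⟨hx.2, hx.1⟩
  rcases half (fun k => toDual (p k)) hp' with h1 | ⟨g', hg1', hg2', hg3'⟩
  · exact Or.inr (Or.inl (E2_of_dual h1))
  right
  right
  have m1 := lexmono (A := ℕᵒᵈ) (B := ℕᵒᵈ) (C := C)
    (fun k i => ofDual (g' (ofDual k) (ofDual i))) (fun k i j hij => hg1' _ hij)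
    (fun k k' i j hk => hg2' _ _ _ _ hk)
  have m2 := lexmono (A := ℕ) (B := ℕ) (C := C) g hg1 (fun k k' i j hk => hg2 _ _ _ _ hk)
  refine ⟨fun x => Sum.elim (fun u : ℕᵒᵈ ×ₗ ℕᵒᵈ => ofDual (g' (ofDual (ofLex u).1)
    (ofDual (ofLex u).2))) (fun u : ℕ ×ₗ ℕ => g (ofLex u).1 (ofLex u).2) (ofLex x), ?_⟩
  intro x y hxy
  have hxy' : Sum.Lex (· < ·) (· < ·) (ofLex x) (ofLex y) := hxy
  dsimp only
  rcases hx : ofLex x with u | u <;> rcases hy : ofLex y with v | v <;> rw [hx, hy] at hxy'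
  · simp only [Sum.elim_inl]
    exact m1 (Sum.lex_inl_inl.1 hxy')
  · simp only [Sum.elim_inl, Sum.elim_inr]
    have h1 : ofDual (g' (ofDual (ofLex u).1) (ofDual (ofLex u).2)) < p 0 := hg3' _ _
    exact h1.trans (lt_of_le_of_lt h (hg3 _ _))
  · exact absurd hxy' Sum.lex_inr_inl
  · simp only [Sum.elim_inr]
    exact m2 (Sum.lex_inr_inr.1 hxy')

theorem stab {A B C : Type*} [Preorder A] [PartialOrder B] [LinearOrder C] [Nonempty A]
    (c : A → B → C) (hA : ∀ a a' b, a ≤ a' → c a' b ≤ c a b) (hB : ∀ a, StrictMono (c a))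
    (hno : ∀ b : B, ∃ b', b < b') :
    (∃ a0, ∀ a, a0 ≤ a → ∀ b, ∃ b', c a0 b ≤ c a b') ∨ E2 C := by
  by_cases h : ∃ a0, ∀ a, a0 ≤ a → ∀ b, ∃ b', c a0 b ≤ c a b'
  · exact Or.inl h
  right
  push Not at h
  choose nx hnx1 bb hbb using h
  choose up hup using hno
  obtain ⟨a0⟩ := ‹Nonempty A›
  obtain ⟨a, ha⟩ : ∃ a : ℕ → A, ∀ k, a (k + 1) = nx (a k) :=
    ⟨fun k => nx^[k] a0, fun k => Function.iterate_succ_apply' nx k a0⟩
  have hmono : Monotone a := monotone_nat_of_le_succ (fun k => by rw [ha]; exact hnx1 _)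
  have hup' : ∀ b, StrictMono (fun i : ℕ => up^[i] b) := fun b =>
    strictMono_nat_of_lt_succ (fun i => by rw [Function.iterate_succ_apply']; exact hup _)
  refine ⟨_, lexmono (fun (k : ℕᵒᵈ) (i : ℕ) => c (a (ofDual k)) (up^[i] (bb (a (ofDual k)))))
    ?_ ?_⟩
  · intro k
    exact (hB _).comp (hup' _)
  · intro k k' i j hk
    have h1 : a (ofDual k' + 1) ≤ a (ofDual k) := hmono hk
    have h2 := hA _ _ (up^[i] (bb (a (ofDual k)))) h1
    have h3 := hbb (a (ofDual k')) (up^[i] (bb (a (ofDual k))))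
    rw [← ha] at h3
    have h4 : c (a (ofDual k')) (bb (a (ofDual k'))) ≤
        c (a (ofDual k')) (up^[j] (bb (a (ofDual k')))) :=
      (hB _).monotone ((hup' (bb (a (ofDual k')))).monotone (Nat.zero_le j))
    exact lt_of_le_of_lt h2 (lt_of_lt_of_le h3 h4)

theorem big {C : Type*} [LinearOrder C] {a m b : C} (ham : a ≤ m) (hmb : m ≤ b) (N : ℕ)
    (z : ℕ → C) (hz : ∀ j < N, z j < z (j + 1)) (h0 : a ≤ z 0) (h1 : z N ≤ b)
    (hN : (Icc a m).ncard + (Icc m b).ncard ≤ N) : (Icc a b).Infinite := by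
  intro hfin
  have e : Icc a b = Icc a m ∪ Icc m b := (Icc_union_Icc_eq_Icc ham hmb).symm
  have h2 : (Icc a b).ncard ≤ N := by
    rw [e]
    exact (ncard_union_le _ _).trans hN
  have hst : ∀ d j, j + d + 1 ≤ N → z j < z (j + d + 1) := by
    intro d
    induction d with
    | zero => intro j hj; exact hz j (by omega)
    | succ d ih =>
      intro j hj
      exact (ih j (by omega)).trans (hz (j + d + 1) (by omega))
  have hst' : ∀ j k, j < k → k ≤ N → z j < z k := by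
    intro j k hjk hk
    have := hst (k - j - 1) j (by omega)
    rwa [show j + (k - j - 1) + 1 = k by omega] at this
  have hinj : Set.InjOn z (Finset.range (N + 1) : Set ℕ) := by
    intro j hj k hk hjk
    rw [Finset.mem_coe, Finset.mem_range] at hj hk
    rcases lt_trichotomy j k with h | h | h
    · exact absurd hjk (hst' j k h (by omega)).ne
    · exact h
    · exact absurd hjk (hst' k j h (by omega)).ne'
  have hsub : (((Finset.range (N + 1)).image z : Finset C) : Set C) ⊆ Icc a b := by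
    intro x hx
    rw [Finset.coe_image] at hx
    obtain ⟨j, hj, rfl⟩ := hx
    rw [Finset.mem_coe, Finset.mem_range] at hj
    constructor
    · rcases Nat.eq_zero_or_pos j with h | h
      · rw [h]; exact h0
      · exact h0.trans (hst' 0 j h (by omega)).le
    · rcases Nat.lt_or_ge j N with h | h
      · exact (hst' j N h le_rfl).le.trans h1
      · rw [show j = N by omega]; exact h1
  have h3 := Set.ncard_le_ncard hsub hfin
  rw [Set.ncard_coe_finset, Finset.card_image_of_injOn hinj, Finset.card_range] at h3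
  omega

theorem main_abs {X Y C : Type*} [LinearOrder C] [Infinite Y] [DecidableEq X] [DecidableEq Y]
    (n : X → Y → ℕ) (i : ℕ → X) (hi : Function.Injective i)
    (hN1 : ∀ (w : Finset Y → Y → ℕ) (G : Finset X), ∃ x, x ∉ G ∧ ∀ (F : Finset Y) (c0 : ℕ),
      ∃ y, y ∉ F ∧ w F y + c0 ≤ n x y)
    (hN2 : ∀ (G0 : Finset X) (w : Finset X → ℕ → ℕ) (F : Finset Y), ∃ y, y ∉ F ∧
      ∀ G : Finset X, (∀ x ∈ G, x ∈ G0 ∨ ∃ k, x = i k) → ∀ c0 : ℕ,
        ∃ k, i k ∉ G ∧ w G k + c0 ≤ n (i k) y)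
    (c : Finset X → Finset Y → C)
    (hc1 : ∀ F, StrictAnti (fun G => c G F)) (hc2 : ∀ G, StrictMono (c G))
    (hc3 : ∀ G F x y, x ∉ G → y ∉ F → ∃ z : ℕ → C, (∀ j < n x y, z j < z (j + 1)) ∧
      c (insert x G) F ≤ z 0 ∧ z (n x y) ≤ c G (insert y F)) :
    E1 C ∨ E2 C ∨ E3 C := by
  have anti : ∀ {G G' : Finset X} (F : Finset Y), G ⊆ G' → c G' F ≤ c G F :=
    fun F h => (hc1 F).antitone h
  have mono : ∀ (G : Finset X) {F F' : Finset Y}, F ⊆ F' → c G F ≤ c G F' :=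
    fun G _ _ h => (hc2 G).monotone h
  -- step 1
  rcases stab c (fun a a' b h => anti b h) hc2 (fun F => by
      obtain ⟨y, hy⟩ := Infinite.exists_notMem_finset F
      exact ⟨insert y F, Finset.ssubset_insert hy⟩) with ⟨G0, hG0⟩ | h
  swap
  · exact Or.inr (Or.inl h)
  obtain ⟨x, hx, hx'⟩ := hN1 (fun F y => (Icc (c G0 F) (c G0 (insert y F))).ncard) G0
  have hq : ∀ F, ∃ F', (Icc (c G0 F) (c G0 F')).Infinite := by
    intro F
    obtain ⟨F1, hF1⟩ := hG0 (insert x G0) (Finset.subset_insert _ _) F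
    obtain ⟨y, hy, hy'⟩ := hx' F1 (Icc (c (insert x G0) F1) (c G0 F1)).ncard
    obtain ⟨z, hz, hz0, hz1⟩ := hc3 G0 F1 x y hx hy
    have h1 := big (anti F1 (Finset.subset_insert x G0)) (mono G0 (Finset.subset_insert y F1))
      (n x y) z hz hz0 hz1 (by omega)
    exact ⟨insert y F1, h1.mono (Icc_subset_Icc hF1 le_rfl)⟩
  -- step 2
  obtain ⟨B, hB⟩ : ∃ B : Finset X → Prop, ∀ G, B G ↔ ∀ x ∈ G, x ∈ G0 ∨ ∃ k, x = i k :=
    ⟨_, fun _ => Iff.rfl⟩
  have hBins : ∀ G k, B G → B (insert (i k) G) := by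
    intro G k hG
    rw [hB] at hG ⊢
    intro x hx
    rcases Finset.mem_insert.1 hx with h | h
    · exact Or.inr ⟨k, h⟩
    · exact hG x h
  have hBG0 : B G0 := by
    rw [hB]
    exact fun x hx => Or.inl hx
  rcases stab (A := Finset Y) (B := {G : Finset X // B G}) (C := Cᵒᵈ)
      (fun F G => toDual (c G.1 F))
      (fun F F' G h => toDual_le_toDual.2 (mono G.1 h))
      (fun F G G' h => toDual_lt_toDual.2 (hc1 F h)) (fun G => by
      obtain ⟨k, hk⟩ : ∃ k, i k ∉ G.1 := by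
        by_contra hcon
        push Not at hcon
        exact Set.infinite_range_of_injective hi (G.1.finite_toSet.subset (by
          rintro _ ⟨k, rfl⟩
          exact hcon k))
      exact ⟨⟨insert (i k) G.1, hBins _ _ G.2⟩, Finset.ssubset_insert hk⟩) with ⟨F0, hF0⟩ | h
  swap
  · exact Or.inl (E1_of_dual h)
  obtain ⟨y, hy, hy'⟩ := hN2 G0 (fun G k => (Icc (c (insert (i k) G) F0) (c G F0)).ncard) F0
  have hp : ∀ G : {G : Finset X // B G}, ∃ G' : {G : Finset X // B G},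
      (Icc (c G'.1 F0) (c G.1 F0)).Infinite := by
    intro G
    obtain ⟨G1, hG1⟩ := hF0 (insert y F0) (Finset.subset_insert _ _) G
    have hG1' : c G1.1 (insert y F0) ≤ c G.1 F0 := hG1
    obtain ⟨k, hk, hk'⟩ := hy' G1.1 ((hB _).1 G1.2)
      (Icc (c G1.1 F0) (c G1.1 (insert y F0))).ncard
    obtain ⟨z, hz, hz0, hz1⟩ := hc3 G1.1 F0 (i k) y hk hy
    have h1 := big (anti F0 (Finset.subset_insert (i k) G1.1))
      (mono G1.1 (Finset.subset_insert y F0)) (n (i k) y) z hz hz0 hz1 (by omega)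
    exact ⟨⟨insert (i k) G1.1, hBins _ _ G1.2⟩, h1.mono (Icc_subset_Icc le_rfl hG1')⟩
  -- the two sequences
  choose nF hnF using hq
  choose nG hnG using hp
  refine final (fun k => c G0 (nF^[k] F0)) (fun k => c (nG^[k] ⟨G0, hBG0⟩).1 F0) ?_ ?_ ?_
  · intro k
    rw [Function.iterate_succ_apply']
    exact hnF _
  · intro k
    rw [Function.iterate_succ_apply']
    exact hnG _
  · exact le_rfl

/-! ## the concrete matrix -/

/-- the first index set -/
abbrev X0 : Type := ℕ ⊕ ((ℕ → ℕ) → ℕ)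
/-- the second index set -/
abbrev Y0 : Type := (ℕ → ℕ) ⊕ (ℕ → ℕ)

/-- the matrix -/
def n0 : X0 → Y0 → ℕ
  | Sum.inl k, Sum.inl φ => φ k
  | Sum.inr ψ, Sum.inr y => ψ y
  | Sum.inl _, Sum.inr _ => 0
  | Sum.inr _, Sum.inl _ => 0

theorem exists_inj : ∃ ι : Finset Y0 × ℕ → (ℕ → ℕ), Function.Injective ι := by
  have h1 : Cardinal.mk (ℕ → ℕ) = Cardinal.continuum := by simp
  have h2 : Cardinal.mk (Finset Y0 × ℕ) ≤ Cardinal.mk (ℕ → ℕ) := by
    rw [Cardinal.mk_prod, Cardinal.mk_finset_of_infinite, Cardinal.mk_sum, h1]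
    simp
  obtain ⟨e⟩ := (Cardinal.le_def _ _).1 h2
  exact ⟨e, e.injective⟩

open Classical in
theorem n0_first (w : Finset Y0 → Y0 → ℕ) (G : Finset X0) : ∃ x, x ∉ G ∧
    ∀ (F : Finset Y0) (c0 : ℕ), ∃ y, y ∉ F ∧ w F y + c0 ≤ n0 x y := by
  obtain ⟨ι, hι⟩ := exists_inj
  obtain ⟨ψ, hψ⟩ : ∃ ψ : (ℕ → ℕ) → ℕ, ∀ y, ψ y =
      (if h : ∃ r, ι r = y then w h.choose.1 (Sum.inr y) + h.choose.2 else 0) +
        ∑ g ∈ G, (Sum.elim (fun _ => 0) (fun ψ' => ψ' y) g) + 1 := ⟨_, fun _ => rfl⟩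
  refine ⟨Sum.inr ψ, ?_, ?_⟩
  · intro hG
    have h1 := Finset.single_le_sum (s := G)
      (f := fun g : X0 => (Sum.elim (fun _ => 0) (fun ψ' => ψ' (fun _ => 0)) g : ℕ))
      (fun _ _ => Nat.zero_le _) hG
    have h2 := hψ (fun _ => 0)
    simp only [Sum.elim_inr] at h1
    omega
  · intro F c0
    obtain ⟨k, hk⟩ : ∃ k : ℕ, (Sum.inr (ι (F, c0 + k)) : Y0) ∉ F := by
      by_contra hcon
      push Not at hcon
      have hinj : Function.Injective (fun k : ℕ => (Sum.inr (ι (F, c0 + k)) : Y0)) := by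
        intro a b hab
        have h1 := hι (Sum.inr_injective hab)
        have h2 := (Prod.mk.injEq _ _ _ _).mp h1
        omega
      exact Set.infinite_range_of_injective hinj (F.finite_toSet.subset (by
        rintro _ ⟨k, rfl⟩
        exact hcon k))
    refine ⟨Sum.inr (ι (F, c0 + k)), hk, ?_⟩
    show w F (Sum.inr (ι (F, c0 + k))) + c0 ≤ ψ (ι (F, c0 + k))
    have hex : ∃ r, ι r = ι (F, c0 + k) := ⟨_, rfl⟩
    have hr : hex.choose = (F, c0 + k) := hι hex.choose_spec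
    rw [hψ, dif_pos hex, hr]
    dsimp only
    omega

theorem n0_second (G0 : Finset X0) (w : Finset X0 → ℕ → ℕ) (F : Finset Y0) : ∃ y, y ∉ F ∧
    ∀ G : Finset X0, (∀ x ∈ G, x ∈ G0 ∨ ∃ k : ℕ, x = Sum.inl k) → ∀ c0 : ℕ,
      ∃ k : ℕ, (Sum.inl k : X0) ∉ G ∧ w G k + c0 ≤ n0 (Sum.inl k) y := by
  have hcount : Countable {G : Finset X0 // ∀ x ∈ G, x ∈ G0 ∨ ∃ k : ℕ, x = Sum.inl k} := by
    have hc : ({x | x ∈ G0 ∨ ∃ k : ℕ, x = Sum.inl k} : Set X0).Countable := by
      refine (G0.countable_toSet.union (Set.countable_range (Sum.inl : ℕ → X0))).mono ?_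
      rintro x (hx | ⟨k, rfl⟩)
      · exact Or.inl hx
      · exact Or.inr ⟨k, rfl⟩
    have := hc.to_subtype
    classical
    refine Function.Surjective.countable
      (α := Finset {x | x ∈ G0 ∨ ∃ k : ℕ, x = (Sum.inl k : X0)})
      (f := fun T => ⟨T.map (Function.Embedding.subtype _), ?_⟩) ?_
    · intro x hx
      obtain ⟨y, -, rfl⟩ := Finset.mem_map.1 hx
      exact y.2
    · rintro ⟨G, hG⟩
      refine ⟨G.attach.image (fun x => ⟨x.1, hG x.1 x.2⟩), ?_⟩
      ext x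
      simp only [Finset.mem_map, Finset.mem_image, Finset.mem_attach, true_and,
        Function.Embedding.coe_subtype, Subtype.exists]
      constructor
      · rintro ⟨a, _, ⟨b, hb, hab⟩, hax⟩
        have h1 : b = a := congrArg Subtype.val hab
        have h2 : a = x := hax
        rw [← h2, ← h1]
        exact hb
      · intro hx
        exact ⟨x, hG x hx, ⟨x, hx, rfl⟩, rfl⟩
  obtain ⟨g, hg⟩ := countable_bound
    (fun (G : {G : Finset X0 // ∀ x ∈ G, x ∈ G0 ∨ ∃ k : ℕ, x = Sum.inl k}) (k : ℕ) =>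
      w G.1 k + k)
  obtain ⟨φ, hφ⟩ : ∃ φ : ℕ → ℕ, ∀ k, φ k =
      g k + ∑ y ∈ F, (Sum.elim (fun η : ℕ → ℕ => η k) (fun _ => 0) y) + 1 := ⟨_, fun _ => rfl⟩
  refine ⟨Sum.inl φ, ?_, ?_⟩
  · intro hF
    have h1 := Finset.single_le_sum (s := F)
      (f := fun y : Y0 => (Sum.elim (fun η : ℕ → ℕ => η 0) (fun _ => 0) y : ℕ))
      (fun _ _ => Nat.zero_le _) hF
    have h2 := hφ 0
    simp only [Sum.elim_inl] at h1
    omega
  · intro G hG c0
    obtain ⟨K, hK⟩ := hg ⟨G, hG⟩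
    obtain ⟨k, hk⟩ : ∃ k : ℕ, (Sum.inl (K + c0 + k) : X0) ∉ G := by
      by_contra hcon
      push Not at hcon
      have hinj : Function.Injective (fun k : ℕ => (Sum.inl (K + c0 + k) : X0)) := by
        intro a b hab
        have h1 := Sum.inl_injective hab
        omega
      exact Set.infinite_range_of_injective hinj (G.finite_toSet.subset (by
        rintro _ ⟨k, rfl⟩
        exact hcon k))
    refine ⟨K + c0 + k, hk, ?_⟩
    show w G (K + c0 + k) + c0 ≤ φ (K + c0 + k)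
    have h1 := hK (K + c0 + k) (by omega)
    dsimp only at h1
    rw [hφ]
    omega

end Pool.Agent.Helper5_DF7
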