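import Pool.Agent.Helper5_DF7.Asm

/-!
# MP_df7fe8_co: the version with cardinals
-/

set_option autoImplicit false

namespace Pool.Agent.Helper5_DF7

open Set OrderDual Pool.Agent.SMZ Cardinal

universe u v

/-- `(ω²)* + ω` -/
def E4 (C : Type*) [Preorder C] : Prop := ∃ f : (ℕᵒᵈ ×ₗ ℕᵒᵈ) ⊕ₗ ℕ → C, StrictMono f
/-- `ω* + ω²` -/
def E5 (C : Type*) [Preorder C] : Prop := ∃ f : ℕᵒᵈ ⊕ₗ (ℕ ×ₗ ℕ) → C, StrictMono f

theorem sum_lex_mono {A B C : Type*} [Preorder A] [Preorder B] [Preorder C] (f : A → C) (g : B → C)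
    (hf : StrictMono f) (hg : StrictMono g) (h : ∀ a b, f a < g b) :
    StrictMono (fun x : A ⊕ₗ B => Sum.elim f g (ofLex x)) := by
  intro x y hxy
  have hxy' : Sum.Lex (· < ·) (· < ·) (ofLex x) (ofLex y) := hxy
  dsimp only
  rcases hx : ofLex x with u | u <;> rcases hy : ofLex y with v | v <;> rw [hx, hy] at hxy'
  · simp only [Sum.elim_inl]
    exact hf (Sum.lex_inl_inl.1 hxy')
  · simp only [Sum.elim_inl, Sum.elim_inr]
    exact h _ _
  · exact absurd hxy' Sum.lex_inr_inl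
  · simp only [Sum.elim_inr]
    exact hg (Sum.lex_inr_inr.1 hxy')

theorem final4 {C : Type*} [LinearOrder C] (q p : ℕ → C) (hq : StrictMono q)
    (hp : ∀ k, (Icc (p (k + 1)) (p k)).Infinite) (h : p 0 ≤ q 0) : E2 C ∨ E4 C := by
  have hp' : ∀ k, (Icc (toDual (p k)) (toDual (p (k + 1)))).Infinite := by
    intro k hf
    refine hp k (hf.subset ?_)
    intro x hx
    exact ⟨hx.2, hx.1⟩
  rcases half (fun k => toDual (p k)) hp' with h1 | ⟨g', hg1', hg2', hg3'⟩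
  · exact Or.inl (E2_of_dual h1)
  right
  have m1 := lexmono (A := ℕᵒᵈ) (B := ℕᵒᵈ) (C := C)
    (fun k i => ofDual (g' (ofDual k) (ofDual i))) (fun k i j hij => hg1' _ hij)
    (fun k k' i j hk => hg2' _ _ _ _ hk)
  refine ⟨_, sum_lex_mono _ q m1 hq ?_⟩
  intro a b
  have h1 : ofDual (g' (ofDual (ofLex a).1) (ofDual (ofLex a).2)) < p 0 := hg3' _ _
  exact h1.trans_le (h.trans (hq.monotone (Nat.zero_le b)))

theorem E5_of_dual {C : Type*} [Preorder C] (h : E4 Cᵒᵈ) : E5 C := by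
  obtain ⟨f, hf⟩ := h
  refine ⟨_, sum_lex_mono (A := ℕᵒᵈ) (B := ℕ ×ₗ ℕ)
    (fun k => ofDual (f (toLex (Sum.inr (ofDual k)))))
    (fun q => ofDual (f (toLex (Sum.inl (toLex (toDual (ofLex q).1, toDual (ofLex q).2))))))
    ?_ ?_ ?_⟩
  · intro a b hab
    have h1 : (toLex (Sum.inr (ofDual b)) : (ℕᵒᵈ ×ₗ ℕᵒᵈ) ⊕ₗ ℕ) < toLex (Sum.inr (ofDual a)) :=
      Sum.Lex.inr hab
    exact hf h1
  · intro a b hab
    have h2 : (toLex (toDual (ofLex b).1, toDual (ofLex b).2) : ℕᵒᵈ ×ₗ ℕᵒᵈ) <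
        toLex (toDual (ofLex a).1, toDual (ofLex a).2) := by
      rw [Prod.Lex.lt_iff] at hab
      rw [Prod.Lex.toLex_lt_toLex]
      rcases hab with h | ⟨h, h'⟩
      · exact Or.inl h
      · refine Or.inr ⟨?_, h'⟩
        dsimp only
        rw [h]
    have h1 : (toLex (Sum.inl (toLex (toDual (ofLex b).1, toDual (ofLex b).2))) :
        (ℕᵒᵈ ×ₗ ℕᵒᵈ) ⊕ₗ ℕ) <
        toLex (Sum.inl (toLex (toDual (ofLex a).1, toDual (ofLex a).2))) :=
      Sum.Lex.inl h2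
    exact hf h1
  · intro a b
    have h1 : (toLex (Sum.inl (toLex (toDual (ofLex b).1, toDual (ofLex b).2))) :
        (ℕᵒᵈ ×ₗ ℕᵒᵈ) ⊕ₗ ℕ) < toLex (Sum.inr (ofDual a)) :=
      Sum.Lex.sep _ _
    exact hf h1

theorem E3_of_dual {C : Type*} [Preorder C] (h : E3 Cᵒᵈ) : E3 C := by
  obtain ⟨f, hf⟩ := h
  refine ⟨_, sum_lex_mono (A := ℕᵒᵈ ×ₗ ℕᵒᵈ) (B := ℕ ×ₗ ℕ)
    (fun q => ofDual (f (toLex (Sum.inr (toLex (ofDual (ofLex q).1, ofDual (ofLex q).2))))))
    (fun q => ofDual (f (toLex (Sum.inl (toLex (toDual (ofLex q).1, toDual (ofLex q).2))))))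
    ?_ ?_ ?_⟩
  · intro a b hab
    have h2 : (toLex (ofDual (ofLex b).1, ofDual (ofLex b).2) : ℕ ×ₗ ℕ) <
        toLex (ofDual (ofLex a).1, ofDual (ofLex a).2) := by
      rw [Prod.Lex.lt_iff] at hab
      rw [Prod.Lex.toLex_lt_toLex]
      rcases hab with h | ⟨h, h'⟩
      · exact Or.inl h
      · refine Or.inr ⟨?_, h'⟩
        dsimp only
        rw [h]
    have h1 : (toLex (Sum.inr (toLex (ofDual (ofLex b).1, ofDual (ofLex b).2))) :
        (ℕᵒᵈ ×ₗ ℕᵒᵈ) ⊕ₗ (ℕ ×ₗ ℕ)) <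
        toLex (Sum.inr (toLex (ofDual (ofLex a).1, ofDual (ofLex a).2))) :=
      Sum.Lex.inr h2
    exact hf h1
  · intro a b hab
    have h2 : (toLex (toDual (ofLex b).1, toDual (ofLex b).2) : ℕᵒᵈ ×ₗ ℕᵒᵈ) <
        toLex (toDual (ofLex a).1, toDual (ofLex a).2) := by
      rw [Prod.Lex.lt_iff] at hab
      rw [Prod.Lex.toLex_lt_toLex]
      rcases hab with h | ⟨h, h'⟩
      · exact Or.inl h
      · refine Or.inr ⟨?_, h'⟩
        dsimp only
        rw [h]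
    have h1 : (toLex (Sum.inl (toLex (toDual (ofLex b).1, toDual (ofLex b).2))) :
        (ℕᵒᵈ ×ₗ ℕᵒᵈ) ⊕ₗ (ℕ ×ₗ ℕ)) <
        toLex (Sum.inl (toLex (toDual (ofLex a).1, toDual (ofLex a).2))) :=
      Sum.Lex.inl h2
    exact hf h1
  · intro a b
    have h1 : (toLex (Sum.inl (toLex (toDual (ofLex b).1, toDual (ofLex b).2))) :
        (ℕᵒᵈ ×ₗ ℕᵒᵈ) ⊕ₗ (ℕ ×ₗ ℕ)) <
        toLex (Sum.inr (toLex (ofDual (ofLex a).1, ofDual (ofLex a).2))) :=
      Sum.Lex.sep _ _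
    exact hf h1

theorem main_abs2 {Y C : Type*} [LinearOrder C] [Infinite Y] [DecidableEq Y]
    {X : Type*} [DecidableEq X]
    (n : X → Y → ℕ) (i : ℕ → X) (hi : Function.Injective i)
    (hN2 : ∀ (w : Finset X → ℕ → ℕ) (F : Finset Y), ∃ y, y ∉ F ∧
      ∀ G : Finset X, (∀ x ∈ G, ∃ k, x = i k) → ∀ c0 : ℕ,
        ∃ k, i k ∉ G ∧ w G k + c0 ≤ n (i k) y)
    (c : Finset X → Finset Y → C)
    (hc1 : ∀ F, StrictAnti (fun G => c G F)) (hc2 : ∀ G, StrictMono (c G))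
    (hc3 : ∀ G F x y, x ∉ G → y ∉ F → ∃ z : ℕ → C, (∀ j < n x y, z j < z (j + 1)) ∧
      c (insert x G) F ≤ z 0 ∧ z (n x y) ≤ c G (insert y F)) :
    E1 C ∨ E2 C ∨ E4 C := by
  have anti : ∀ {G G' : Finset X} (F : Finset Y), G ⊆ G' → c G' F ≤ c G F :=
    fun F h => (hc1 F).antitone h
  have mono : ∀ (G : Finset X) {F F' : Finset Y}, F ⊆ F' → c G F ≤ c G F' :=
    fun G _ _ h => (hc2 G).monotone h
  obtain ⟨B, hB⟩ : ∃ B : Finset X → Prop, ∀ G, B G ↔ ∀ x ∈ G, ∃ k, x = i k :=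
    ⟨_, fun _ => Iff.rfl⟩
  have hBins : ∀ G k, B G → B (insert (i k) G) := by
    intro G k hG
    rw [hB] at hG ⊢
    intro x hx
    rcases Finset.mem_insert.1 hx with h | h
    · exact ⟨k, h⟩
    · exact hG x h
  have hBG0 : B ∅ := by
    rw [hB]
    exact fun x hx => absurd hx (Finset.notMem_empty x)
  rcases stab (A := Finset Y) (B := {G : Finset X // B G}) (C := Cᵒᵈ)
      (fun F G => toDual (c G.1 F))
      (fun F F' G h => toDual_le_toDual.2 (mono G.1 h))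
      (fun F G G' h => toDual_lt_toDual.2 (hc1 F h)) (fun G => by
      obtain ⟨k, hk⟩ : ∃ k, i k ∉ G.1 := by
        by_contra hcon
        push Not at hcon
        exact Set.infinite_range_of_injective hi (G.1.finite_toSet.subset (by
          rintro _ ⟨k, rfl⟩
          exact hcon k))
      exact ⟨⟨insert (i k) G.1, hBins _ _ G.2⟩, Finset.ssubset_insert hk⟩) with ⟨F0, hF0⟩ | h
  swap
  · exact Or.inl (E1_of_dual h)
  obtain ⟨y, hy, hy'⟩ := hN2 (fun G k => (Icc (c (insert (i k) G) F0) (c G F0)).ncard) F0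
  have hp : ∀ G : {G : Finset X // B G}, ∃ G' : {G : Finset X // B G},
      (Icc (c G'.1 F0) (c G.1 F0)).Infinite := by
    intro G
    obtain ⟨G1, hG1⟩ := hF0 (insert y F0) (Finset.subset_insert _ _) G
    have hG1' : c G1.1 (insert y F0) ≤ c G.1 F0 := hG1
    obtain ⟨k, hk, hk'⟩ := hy' G1.1 ((hB _).1 G1.2)
      (Icc (c G1.1 F0) (c G1.1 (insert y F0))).ncard
    obtain ⟨z, hz, hz0, hz1⟩ := hc3 G1.1 F0 (i k) y hk hy
    have h1 := big (anti F0 (Finset.subset_insert (i k) G1.1))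
      (mono G1.1 (Finset.subset_insert y F0)) (n (i k) y) z hz hz0 hz1 (by omega)
    exact ⟨⟨insert (i k) G1.1, hBins _ _ G1.2⟩, h1.mono (Icc_subset_Icc le_rfl hG1')⟩
  have hup : ∀ F : Finset Y, ∃ F', F < F' := by
    intro F
    obtain ⟨y, hy⟩ := Infinite.exists_notMem_finset F
    exact ⟨insert y F, Finset.ssubset_insert hy⟩
  choose nF hnF using hup
  choose nG hnG using hp
  refine Or.inr (final4 (fun k => c ∅ (nF^[k] F0)) (fun k => c (nG^[k] ⟨∅, hBG0⟩).1 F0)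
    ?_ ?_ le_rfl)
  · refine strictMono_nat_of_lt_succ (fun k => ?_)
    rw [Function.iterate_succ_apply']
    exact hc2 ∅ (hnF _)
  · intro k
    rw [Function.iterate_succ_apply']
    exact hnG _

/-! ## the matrices for an unbounded family -/

section family
variable {I : Type u} (φ : I → ℕ → ℕ)
  (hφ : ¬ ∃ g : ℕ → ℕ, ∀ i, ∀ᶠ n in Filter.atTop, φ i n ≤ g n)

include hφ in
/-- a member of the family outside of a finite set which beats a given function infinitely often -/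
theorem exists_beat (F : Finset I) (g : ℕ → ℕ) : ∃ y, y ∉ F ∧ ∀ K : ℕ, ∃ x ≥ K, g x < φ y x := by
  obtain ⟨y, hy⟩ : ∃ y, ∀ K : ℕ, ∃ x ≥ K, g x + ∑ y' ∈ F, φ y' x < φ y x := by
    by_contra hcon
    push Not at hcon
    refine hφ ⟨fun x => g x + ∑ y' ∈ F, φ y' x, fun y => ?_⟩
    obtain ⟨K, hK⟩ := hcon y
    exact Filter.eventually_atTop.2 ⟨K, hK⟩
  refine ⟨y, ?_, fun K => ?_⟩
  · intro h
    obtain ⟨x, -, hx⟩ := hy 0
    have := Finset.single_le_sum (f := fun y' => φ y' x) (fun _ _ => Nat.zero_le _) h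
    omega
  · obtain ⟨x, hx, hx'⟩ := hy K
    exact ⟨x, hx, by omega⟩

/-- the first matrix -/
def n1 : ULift.{u} ℕ → I → ℕ := fun k i => φ i k.down

include hφ in
theorem n1_second (w : Finset (ULift.{u} ℕ) → ℕ → ℕ) (F : Finset I) : ∃ y, y ∉ F ∧
    ∀ G : Finset (ULift.{u} ℕ), (∀ x ∈ G, ∃ k, x = ULift.up k) → ∀ c0 : ℕ,
      ∃ k, (ULift.up k : ULift.{u} ℕ) ∉ G ∧ w G k + c0 ≤ n1 φ (ULift.up k) y := by
  obtain ⟨g, hg⟩ := countable_bound (fun (G : Finset (ULift.{u} ℕ)) (k : ℕ) => w G k + k)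
  obtain ⟨y, hy, hy'⟩ := exists_beat φ hφ F g
  refine ⟨y, hy, fun G _ c0 => ?_⟩
  obtain ⟨K, hK⟩ := hg G
  obtain ⟨x, hx, hx'⟩ := hy' (K + c0 + (G.sup ULift.down + 1))
  have h1 := hK x (by omega)
  refine ⟨x, ?_, ?_⟩
  · intro h
    have h2 : x ≤ G.sup ULift.down := Finset.le_sup (f := ULift.down) h
    omega
  · show w G x + c0 ≤ φ y x
    omega

/-- the second matrix -/
def n2 : (ULift.{u} ℕ ⊕ (I → ℕ)) → (I ⊕ I) → ℕ
  | Sum.inl k, Sum.inl i => φ i k.down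
  | Sum.inr ψ, Sum.inr i => ψ i
  | Sum.inl _, Sum.inr _ => 0
  | Sum.inr _, Sum.inl _ => 0

theorem exists_inj2 [Infinite I] : ∃ ι : Finset (I ⊕ I) × ℕ → I, Function.Injective ι := by
  have hI : ℵ₀ ≤ #I := Cardinal.infinite_iff.1 inferInstance
  have h2 : #(Finset (I ⊕ I) × ULift.{u} ℕ) ≤ #I := by
    refine mk_prod_le hI (mk_finset_le hI ?_) (by simpa using hI)
    rw [Cardinal.mk_sum]
    simp only [Cardinal.lift_id]
    exact (Cardinal.add_eq_self hI).le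
  obtain ⟨e⟩ := (Cardinal.le_def _ _).1 h2
  refine ⟨fun q => e (q.1, ULift.up q.2), ?_⟩
  rintro ⟨a, b⟩ ⟨a', b'⟩ h
  have h1 := e.injective h
  simp only [Prod.mk.injEq, ULift.up_inj] at h1
  rw [h1.1, h1.2]

open Classical in
theorem n2_first [Infinite I] (w : Finset (I ⊕ I) → (I ⊕ I) → ℕ)
    (G : Finset (ULift.{u} ℕ ⊕ (I → ℕ))) : ∃ x, x ∉ G ∧
    ∀ (F : Finset (I ⊕ I)) (c0 : ℕ), ∃ y, y ∉ F ∧ w F y + c0 ≤ n2 φ x y := by
  obtain ⟨ι, hι⟩ := exists_inj2 (I := I)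
  obtain ⟨i0⟩ := (inferInstance : Nonempty I)
  obtain ⟨ψ, hψ⟩ : ∃ ψ : I → ℕ, ∀ y, ψ y =
      (if h : ∃ r, ι r = y then w h.choose.1 (Sum.inr y) + h.choose.2 else 0) +
        ∑ g ∈ G, (Sum.elim (fun _ => 0) (fun ψ' => ψ' y) g) + 1 := ⟨_, fun _ => rfl⟩
  refine ⟨Sum.inr ψ, ?_, ?_⟩
  · intro hG
    have h1 := Finset.single_le_sum (s := G)
      (f := fun g : ULift.{u} ℕ ⊕ (I → ℕ) => (Sum.elim (fun _ => 0) (fun ψ' => ψ' i0) g : ℕ))
      (fun _ _ => Nat.zero_le _) hG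
    have h2 := hψ i0
    simp only [Sum.elim_inr] at h1
    omega
  · intro F c0
    obtain ⟨k, hk⟩ : ∃ k : ℕ, (Sum.inr (ι (F, c0 + k)) : I ⊕ I) ∉ F := by
      by_contra hcon
      push Not at hcon
      have hinj : Function.Injective (fun k : ℕ => (Sum.inr (ι (F, c0 + k)) : I ⊕ I)) := by
        intro a b hab
        have h1 := hι (Sum.inr_injective hab)
        have h2 := (Prod.mk.injEq _ _ _ _).mp h1
        omega
      exact Set.infinite_range_of_injective hinj (F.finite_toSet.subset (by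
        rintro _ ⟨k, rfl⟩
        exact hcon k))
    refine ⟨Sum.inr (ι (F, c0 + k)), hk, ?_⟩
    show w F (Sum.inr (ι (F, c0 + k))) + c0 ≤ ψ (ι (F, c0 + k))
    have hex : ∃ r, ι r = ι (F, c0 + k) := ⟨_, rfl⟩
    have hr : hex.choose = (F, c0 + k) := hι hex.choose_spec
    rw [hψ, dif_pos hex, hr]
    dsimp only
    omega

include hφ in
theorem n2_second (G0 : Finset (ULift.{u} ℕ ⊕ (I → ℕ)))
    (w : Finset (ULift.{u} ℕ ⊕ (I → ℕ)) → ℕ → ℕ) (F : Finset (I ⊕ I)) : ∃ y, y ∉ F ∧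
    ∀ G : Finset (ULift.{u} ℕ ⊕ (I → ℕ)),
      (∀ x ∈ G, x ∈ G0 ∨ ∃ k : ℕ, x = Sum.inl (ULift.up k)) → ∀ c0 : ℕ,
      ∃ k : ℕ, (Sum.inl (ULift.up k) : ULift.{u} ℕ ⊕ (I → ℕ)) ∉ G ∧
        w G k + c0 ≤ n2 φ (Sum.inl (ULift.up k)) y := by
  classical
  have hcount : Countable {G : Finset (ULift.{u} ℕ ⊕ (I → ℕ)) //
      ∀ x ∈ G, x ∈ G0 ∨ ∃ k : ℕ, x = Sum.inl (ULift.up k)} := by
    have hc : ({x | x ∈ G0 ∨ ∃ k : ℕ, x = Sum.inl (ULift.up k)} :
        Set (ULift.{u} ℕ ⊕ (I → ℕ))).Countable := by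
      refine (G0.countable_toSet.union (Set.countable_range
        (fun k : ℕ => (Sum.inl (ULift.up k) : ULift.{u} ℕ ⊕ (I → ℕ))))).mono ?_
      rintro x (hx | ⟨k, rfl⟩)
      · exact Or.inl hx
      · exact Or.inr ⟨k, rfl⟩
    have := hc.to_subtype
    refine Function.Surjective.countable
      (α := Finset {x | x ∈ G0 ∨ ∃ k : ℕ, x = (Sum.inl (ULift.up k) : ULift.{u} ℕ ⊕ (I → ℕ))})
      (f := fun T => ⟨T.map (Function.Embedding.subtype _), ?_⟩) ?_
    · intro x hx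
      obtain ⟨y, -, rfl⟩ := Finset.mem_map.1 hx
      exact y.2
    · rintro ⟨G, hG⟩
      refine ⟨G.attach.image (fun x => ⟨x.1, hG x.1 x.2⟩), ?_⟩
      ext x
      simp only [Finset.mem_map, Finset.mem_image, Finset.mem_attach, true_and,
        Function.Embedding.coe_subtype, Subtype.exists]
      constructor
      · rintro ⟨a, _, ⟨b, hb, hab⟩, hax⟩
        have h1 : b = a := congrArg Subtype.val hab
        have h2 : a = x := hax
        rw [← h2, ← h1]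
        exact hb
      · intro hx
        exact ⟨x, hG x hx, ⟨x, hx, rfl⟩, rfl⟩
  obtain ⟨g, hg⟩ := countable_bound
    (fun (G : {G : Finset (ULift.{u} ℕ ⊕ (I → ℕ)) //
      ∀ x ∈ G, x ∈ G0 ∨ ∃ k : ℕ, x = Sum.inl (ULift.up k)}) (k : ℕ) => w G.1 k + k)
  obtain ⟨y, hy, hy'⟩ := exists_beat φ hφ (F.preimage Sum.inl Sum.inl_injective.injOn) g
  refine ⟨Sum.inl y, ?_, ?_⟩
  · intro h
    exact hy (Finset.mem_preimage.2 h)
  · intro G hG c0
    obtain ⟨K, hK⟩ := hg ⟨G, hG⟩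
    have hcof : ∃ N : ℕ, ∀ k ≥ N, (Sum.inl (ULift.up k) : ULift.{u} ℕ ⊕ (I → ℕ)) ∉ G := by
      refine ⟨(G.sup (Sum.elim ULift.down (fun _ => 0))) + 1, fun k hk h => ?_⟩
      have h2 : k ≤ G.sup (Sum.elim ULift.down (fun _ => 0)) :=
        Finset.le_sup (f := (Sum.elim ULift.down (fun _ => 0) :
          ULift.{u} ℕ ⊕ (I → ℕ) → ℕ)) h
      omega
    obtain ⟨N, hN⟩ := hcof
    obtain ⟨x, hx, hx'⟩ := hy' (K + c0 + N)
    have h1 := hK x (by omega)
    dsimp only at h1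
    refine ⟨x, hN x (by omega), ?_⟩
    show w G x + c0 ≤ φ y x
    omega

end family

/-! ## the lattices -/

section lat
variable {M : Type u} [Lattice M] (p : Pent M) {I : Type u} (φ : I → ℕ → ℕ)
  (hφ : ¬ ∃ g : ℕ → ℕ, ∀ i, ∀ᶠ n in Filter.atTop, φ i n ≤ g n) {C : Type v} [LinearOrder C]

include hφ in
/-- countable coinitiality -/
theorem four (f : LL p (n1 φ) → C) (hf : StrictMono f) : E1 C ∨ E2 C ∨ E4 C := by
  classical
  have : Infinite I := Cardinal.infinite_iff.2 (unbounded_infinite φ hφ).le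
  refine main_abs2 (n1 φ) (fun k => ULift.up k) ULift.up_injective (n1_second φ hφ)
    (fun G F => f (eGF p (n1 φ) G F)) ?_ ?_ ?_
  · intro F G G' h
    exact hf (eGF_anti p _ F h)
  · intro G F F' h
    exact hf (eGF_mono p _ G h)
  · intro G F x y hx hy
    obtain ⟨z, hz, hz0, hz1⟩ := eGF_chain p (n1 φ) G F x y hx
    exact ⟨fun i => f (z i), fun i hi => hf (hz i hi), hf.monotone hz0, hf.monotone hz1⟩

include hφ in
/-- countable cofinality -/
theorem five (f : LL p (fun (i : I) (k : ULift.{u} ℕ) => n1 φ k i) → C) (hf : StrictMono f) :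
    E1 C ∨ E2 C ∨ E5 C := by
  classical
  have : Infinite I := Cardinal.infinite_iff.2 (unbounded_infinite φ hφ).le
  have key : E1 Cᵒᵈ ∨ E2 Cᵒᵈ ∨ E4 Cᵒᵈ := by
    refine main_abs2 (C := Cᵒᵈ) (n1 φ) (fun k => ULift.up k) ULift.up_injective (n1_second φ hφ)
      (fun G F => toDual (f (eGF p _ F G))) ?_ ?_ ?_
    · intro F G G' h
      exact toDual_lt_toDual.2 (hf (eGF_mono p _ F h))
    · intro G F F' h
      exact toDual_lt_toDual.2 (hf (eGF_anti p _ G h))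
    · intro G F x y hx hy
      obtain ⟨z, hz, hz0, hz1⟩ :=
        eGF_chain p (fun (i : I) (k : ULift.{u} ℕ) => n1 φ k i) F G y x hy
      refine ⟨fun i => toDual (f (z (n1 φ x y - i))), ?_, ?_, ?_⟩
      · intro i hi
        refine toDual_lt_toDual.2 (hf ?_)
        have h1 := hz (n1 φ x y - (i + 1)) (by omega)
        rwa [show n1 φ x y - (i + 1) + 1 = n1 φ x y - i by omega] at h1
      · exact toDual_le_toDual.2 (hf.monotone hz1)
      · dsimp only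
        rw [Nat.sub_self]
        exact toDual_le_toDual.2 (hf.monotone hz0)
  rcases key with h | h | h
  · exact Or.inr (Or.inl (E2_of_dual h))
  · exact Or.inl (E1_of_dual h)
  · exact Or.inr (Or.inr (E5_of_dual h))

include hφ in
/-- large coinitiality -/
theorem six (f : LL p (n2 φ) → C) (hf : StrictMono f) : E1 C ∨ E2 C ∨ E3 C := by
  classical
  have : Infinite I := Cardinal.infinite_iff.2 (unbounded_infinite φ hφ).le
  refine main_abs (n2 φ) (fun k => Sum.inl (ULift.up k))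
    (Sum.inl_injective.comp ULift.up_injective) (n2_first φ) (n2_second φ hφ)
    (fun G F => f (eGF p (n2 φ) G F)) ?_ ?_ ?_
  · intro F G G' h
    exact hf (eGF_anti p _ F h)
  · intro G F F' h
    exact hf (eGF_mono p _ G h)
  · intro G F x y hx hy
    obtain ⟨z, hz, hz0, hz1⟩ := eGF_chain p (n2 φ) G F x y hx
    exact ⟨fun i => f (z i), fun i hi => hf (hz i hi), hf.monotone hz0, hf.monotone hz1⟩

include hφ in
/-- large cofinality -/
theorem seven (f : LL p (fun (y : I ⊕ I) (x : ULift.{u} ℕ ⊕ (I → ℕ)) => n2 φ x y) → C)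
    (hf : StrictMono f) : E1 C ∨ E2 C ∨ E3 C := by
  classical
  have : Infinite I := Cardinal.infinite_iff.2 (unbounded_infinite φ hφ).le
  have key : E1 Cᵒᵈ ∨ E2 Cᵒᵈ ∨ E3 Cᵒᵈ := by
    refine main_abs (C := Cᵒᵈ) (n2 φ) (fun k => Sum.inl (ULift.up k))
      (Sum.inl_injective.comp ULift.up_injective) (n2_first φ) (n2_second φ hφ)
      (fun G F => toDual (f (eGF p _ F G))) ?_ ?_ ?_
    · intro F G G' h
      exact toDual_lt_toDual.2 (hf (eGF_mono p _ F h))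
    · intro G F F' h
      exact toDual_lt_toDual.2 (hf (eGF_anti p _ G h))
    · intro G F x y hx hy
      obtain ⟨z, hz, hz0, hz1⟩ :=
        eGF_chain p (fun (y : I ⊕ I) (x : ULift.{u} ℕ ⊕ (I → ℕ)) => n2 φ x y) F G y x hy
      refine ⟨fun i => toDual (f (z (n2 φ x y - i))), ?_, ?_, ?_⟩
      · intro i hi
        refine toDual_lt_toDual.2 (hf ?_)
        have h1 := hz (n2 φ x y - (i + 1)) (by omega)
        rwa [show n2 φ x y - (i + 1) + 1 = n2 φ x y - i by omega] at h1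
      · exact toDual_le_toDual.2 (hf.monotone hz1)
      · dsimp only
        rw [Nat.sub_self]
        exact toDual_le_toDual.2 (hf.monotone hz0)
  rcases key with h | h | h
  · exact Or.inr (Or.inl (E2_of_dual h))
  · exact Or.inl (E1_of_dual h)
  · exact Or.inr (Or.inr (E3_of_dual h))

end lat

end Pool.Agent.Helper5_DF7
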