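import Pool.Agent.Helper5_DF7.Chain2
import Pool.Agent.Helper93_SMZ.Final

/-!
# MP_df7fe8_co: exact coinitiality and cofinality
-/

set_option autoImplicit false

namespace Pool.Agent.Helper5_DF7

open Set OrderDual Pool.Agent.SMZ Cardinal

universe u v

/-- the properties of the values at the elements `e(G, F)` -/
structure Props {X Y C : Type*} [LinearOrder C] [DecidableEq X] [DecidableEq Y] (n : X → Y → ℕ)
    (c : Finset X → Finset Y → C) : Prop where
  anti : ∀ F, StrictAnti (fun G => c G F)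
  mono : ∀ G, StrictMono (c G)
  chain : ∀ G F x y, x ∉ G → y ∉ F → ∃ z : ℕ → C, (∀ j < n x y, z j < z (j + 1)) ∧
    c (insert x G) F ≤ z 0 ∧ z (n x y) ≤ c G (insert y F)

theorem Props.dual {X Y C : Type*} [LinearOrder C] [DecidableEq X] [DecidableEq Y] {n : X → Y → ℕ}
    {c : Finset X → Finset Y → C} (h : Props n c) :
    Props (fun y x => n x y) (fun F G => toDual (c G F)) where
  anti := fun G _ _ hF => toDual_lt_toDual.2 (h.mono G hF)
  mono := fun F _ _ hG => toDual_lt_toDual.2 (h.anti F hG)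
  chain := by
    intro F G y x hy hx
    obtain ⟨z, hz, hz0, hz1⟩ := h.chain G F x y hx hy
    refine ⟨fun i => toDual (z (n x y - i)), ?_, ?_, ?_⟩
    · intro i hi
      refine toDual_lt_toDual.2 ?_
      have h1 := hz (n x y - (i + 1)) (by omega)
      rwa [show n x y - (i + 1) + 1 = n x y - i by omega] at h1
    · exact toDual_le_toDual.2 hz1
    · dsimp only
      rw [Nat.sub_self]
      exact toDual_le_toDual.2 hz0

section lat
variable {M : Type u} [Lattice M] (p : Pent M)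

theorem map_insert' {A B : Type*} [DecidableEq A] [DecidableEq B] (i : A ↪ B) (x : A)
    (G : Finset A) : (insert x G).map i = insert (i x) (G.map i) := Finset.map_insert _ _ _

theorem props_LL {X0 Y0 : Type*} [DecidableEq X0] [DecidableEq Y0] {X Y : Type u} [Infinite X]
    [Infinite Y] (i : X0 ↪ X) (j : Y0 ↪ Y) (n0 : X0 → Y0 → ℕ) (n : X → Y → ℕ)
    (hn : ∀ x y, n (i x) (j y) = n0 x y) {C : Type v} [LinearOrder C] (f : LL p n → C)
    (hf : StrictMono f) : Props n0 (fun G F => f (eGF p n (G.map i) (F.map j))) where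
  anti := fun F _ _ h => hf (eGF_anti p n _ (Finset.map_ssubset_map.2 h))
  mono := fun G _ _ h => hf (eGF_mono p n _ (Finset.map_ssubset_map.2 h))
  chain := by
    classical
    intro G F x y hx hy
    have hx' : i x ∉ G.map i := fun h => hx ((Finset.mem_map' i).1 h)
    obtain ⟨z, hz, hz0, hz1⟩ := eGF_chain p n (G.map i) (F.map j) (i x) (j y) hx'
    rw [hn] at hz hz1
    refine ⟨fun k => f (z k), fun k hk => hf (hz k hk), ?_, ?_⟩
    · rw [map_insert']
      exact hf.monotone hz0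
    · rw [map_insert']
      exact hf.monotone hz1

variable {I : Type u} (φ : I → ℕ → ℕ)
  (hφ : ¬ ∃ g : ℕ → ℕ, ∀ i, ∀ᶠ n in Filter.atTop, φ i n ≤ g n)

include hφ in
theorem abs4 [DecidableEq I] {C : Type*} [LinearOrder C]
    {c : Finset (ULift.{u} ℕ) → Finset I → C} (h : Props (n1 φ) c) : E1 C ∨ E2 C ∨ E4 C := by
  have : Infinite I := Cardinal.infinite_iff.2 (unbounded_infinite φ hφ).le
  exact main_abs2 (n1 φ) (fun k => ULift.up k) ULift.up_injective (n1_second φ hφ) c h.anti h.mono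
    h.chain

include hφ in
theorem abs5 [DecidableEq I] {C : Type*} [LinearOrder C]
    {c : Finset I → Finset (ULift.{u} ℕ) → C} (h : Props (fun i k => n1 φ k i) c) :
    E1 C ∨ E2 C ∨ E5 C := by
  rcases abs4 φ hφ h.dual with h | h | h
  · exact Or.inr (Or.inl (E2_of_dual h))
  · exact Or.inl (E1_of_dual h)
  · exact Or.inr (Or.inr (E5_of_dual h))

include hφ in
theorem abs6 [DecidableEq (I ⊕ I)] [DecidableEq (ULift.{u} ℕ ⊕ (I → ℕ))] {C : Type*}
    [LinearOrder C] {c : Finset (ULift.{u} ℕ ⊕ (I → ℕ)) → Finset (I ⊕ I) → C}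
    (h : Props (n2 φ) c) : E1 C ∨ E2 C ∨ E3 C := by
  have : Infinite I := Cardinal.infinite_iff.2 (unbounded_infinite φ hφ).le
  exact main_abs (n2 φ) (fun k => Sum.inl (ULift.up k))
    (Sum.inl_injective.comp ULift.up_injective) (n2_first φ) (n2_second φ hφ) c h.anti h.mono
    h.chain

include hφ in
theorem abs7 [DecidableEq (I ⊕ I)] [DecidableEq (ULift.{u} ℕ ⊕ (I → ℕ))] {C : Type*}
    [LinearOrder C] {c : Finset (I ⊕ I) → Finset (ULift.{u} ℕ ⊕ (I → ℕ)) → C}
    (h : Props (fun y x => n2 φ x y) c) : E1 C ∨ E2 C ∨ E3 C := by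
  rcases abs6 φ hφ h.dual with h | h | h
  · exact Or.inr (Or.inl (E2_of_dual h))
  · exact Or.inl (E1_of_dual h)
  · exact Or.inr (Or.inr (E3_of_dual h))

include p in
/-- a lattice with given coinitiality and cofinality, and any matrix inside -/
theorem pad {X0 Y0 : Type u} [Nonempty X0] [Nonempty Y0] (n0 : X0 → Y0 → ℕ) {κ μ : Cardinal.{u}}
    (hκ : ℵ₀ ≤ κ) (hμ : ℵ₀ ≤ μ) (hX : #X0 ≤ κ) (hY : #Y0 ≤ μ) :
    ∃ (ι : Type u) (S : Sublattice (ι → M)), (∀ x y : S, (Set.Icc x y).Finite) ∧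
      SMZ.coinit S = κ ∧ SMZ.cofin S = μ ∧ ∀ (C : Type v) [LinearOrder C] (f : S → C), StrictMono f →
        ∀ [DecidableEq X0] [DecidableEq Y0], ∃ c : Finset X0 → Finset Y0 → C, Props n0 c := by
  have hX' : #κ.out = κ := Cardinal.mk_out κ
  have hY' : #μ.out = μ := Cardinal.mk_out μ
  have : Infinite κ.out := Cardinal.infinite_iff.2 (by rw [hX']; exact hκ)
  have : Infinite μ.out := Cardinal.infinite_iff.2 (by rw [hY']; exact hμ)
  obtain ⟨i⟩ := (Cardinal.le_def _ _).1 (hX.trans hX'.ge)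
  obtain ⟨j⟩ := (Cardinal.le_def _ _).1 (hY.trans hY'.ge)
  let n : κ.out → μ.out → ℕ := fun x y => n0 (Function.invFun i x) (Function.invFun j y)
  refine ⟨κ.out × μ.out × ℕ, LL p n, fun x y => finite_Icc p n x y, ?_, ?_, ?_⟩
  · rw [coinit_LL p n, hX']
  · rw [cofin_LL p n, hY']
  · intro C _ f hf _ _
    refine ⟨_, props_LL p i j n0 n (fun x y => ?_) f hf⟩
    show n0 (Function.invFun i (i x)) (Function.invFun j (j y)) = n0 x y
    rw [Function.leftInverse_invFun i.injective x, Function.leftInverse_invFun j.injective y]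

end lat

theorem mk_big {I : Type u} (hI : ℵ₀ ≤ #I) : #(ULift.{u} ℕ ⊕ (I → ℕ)) ≤ 2 ^ #I := by
  have h1 : #(I → ℕ) = 2 ^ #I := by
    rw [Cardinal.mk_arrow]
    simp only [Cardinal.lift_uzero, Cardinal.mk_nat, Cardinal.lift_aleph0]
    exact Cardinal.power_eq_two_power hI (Cardinal.ofNat_le_aleph0) hI
  have h2 : ℵ₀ ≤ (2 : Cardinal.{u}) ^ #I := hI.trans (Cardinal.cantor _).le
  rw [Cardinal.mk_sum]
  simp only [Cardinal.lift_id]
  rw [h1]
  refine (add_le_add (b := (2 : Cardinal.{u}) ^ #I) ?_ le_rfl).trans (Cardinal.add_eq_self h2).le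
  simpa using h2

/-- the negative part for a nonmodular lattice -/
theorem neg_part {M : Type u} [Lattice M] (hM : ¬ IsModularLattice M) {κ μ : Cardinal.{u}}
    (hκ : ℵ₀ ≤ κ) (hμ : ℵ₀ ≤ μ) (hb : bnum.{u} ≤ max κ μ)
    (h : min κ μ = ℵ₀ ∨ (bnum.{u} ≤ min κ μ ∧ 2 ^ bnum.{u} ≤ max κ μ)) :
    ∃ (ι : Type u) (S : Sublattice (ι → M)), (∀ x y : S, (Set.Icc x y).Finite) ∧
      SMZ.coinit S = κ ∧ SMZ.cofin S = μ ∧ ∀ (C : Type v) [LinearOrder C] (f : S → C), StrictMono f →
        (E1 C ∨ E2 C ∨ E3 C ∨ (κ = ℵ₀ ∧ E4 C) ∨ (μ = ℵ₀ ∧ E5 C)) := by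
  classical
  obtain ⟨p⟩ := exists_pent hM
  obtain ⟨I, φ, hI, hφ⟩ := SMZ.exists_unbounded.{u}
  have hinf := (unbounded_infinite φ hφ).le
  have : Infinite I := Cardinal.infinite_iff.2 hinf
  have hN : #(ULift.{u} ℕ) ≤ ℵ₀ := by simp
  have hII : #(I ⊕ I) = #I := by
    rw [Cardinal.mk_sum]
    simp only [Cardinal.lift_id]
    exact Cardinal.add_eq_self hinf
  rw [← hI] at hb h
  rcases h with h | ⟨h1, h2⟩
  · rcases le_total κ μ with h3 | h3
    · rw [min_eq_left h3] at h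
      rw [max_eq_right h3] at hb
      obtain ⟨ι, S, a1, a2, a3, a4⟩ := pad p (n1 φ) hκ hμ (hN.trans hκ) hb
      refine ⟨ι, S, a1, a2, a3, fun C _ f hf => ?_⟩
      obtain ⟨c, hc⟩ := a4 C f hf
      rcases abs4 φ hφ hc with h5 | h5 | h5
      · exact Or.inl h5
      · exact Or.inr (Or.inl h5)
      · exact Or.inr (Or.inr (Or.inr (Or.inl ⟨h, h5⟩)))
    · rw [min_eq_right h3] at h
      rw [max_eq_left h3] at hb
      obtain ⟨ι, S, a1, a2, a3, a4⟩ := pad p (fun i k => n1 φ k i) hκ hμ hb (hN.trans hμ)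
      refine ⟨ι, S, a1, a2, a3, fun C _ f hf => ?_⟩
      obtain ⟨c, hc⟩ := a4 C f hf
      rcases abs5 φ hφ hc with h5 | h5 | h5
      · exact Or.inl h5
      · exact Or.inr (Or.inl h5)
      · exact Or.inr (Or.inr (Or.inr (Or.inr ⟨h, h5⟩)))
  · rcases le_total κ μ with h3 | h3
    · rw [min_eq_left h3] at h1
      rw [max_eq_right h3] at h2
      obtain ⟨ι, S, a1, a2, a3, a4⟩ := pad p (fun y x => n2 φ x y) hκ hμ (hII.le.trans h1)
        ((mk_big hinf).trans h2)
      refine ⟨ι, S, a1, a2, a3, fun C _ f hf => ?_⟩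
      obtain ⟨c, hc⟩ := a4 C f hf
      rcases abs7 φ hφ hc with h5 | h5 | h5
      · exact Or.inl h5
      · exact Or.inr (Or.inl h5)
      · exact Or.inr (Or.inr (Or.inl h5))
    · rw [min_eq_right h3] at h1
      rw [max_eq_left h3] at h2
      obtain ⟨ι, S, a1, a2, a3, a4⟩ := pad p (n2 φ) hκ hμ ((mk_big hinf).trans h2)
        (hII.le.trans h1)
      refine ⟨ι, S, a1, a2, a3, fun C _ f hf => ?_⟩
      obtain ⟨c, hc⟩ := a4 C f hf
      rcases abs6 φ hφ hc with h5 | h5 | h5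
      · exact Or.inl h5
      · exact Or.inr (Or.inl h5)
      · exact Or.inr (Or.inr (Or.inl h5))

end Pool.Agent.Helper5_DF7
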