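import Pool.Agent.Helper5_DF7.Basic

/-!
# MP_df7fe8_co: colourings which are not dominated by a sum
-/

set_option autoImplicit false

namespace Pool.Agent.Helper5_DF7

open Cardinal Set

/-- `c` is not dominated by a sum `g a + g' b` -/
def NoSum {A B : Type*} (c : A → B → ℕ) : Prop :=
  ¬ ∃ (g : A → ℕ) (g' : B → ℕ), ∀ a b, c a b ≤ g a + g' b

theorem nosum_omega {W : Type} [LinearOrder W] (hW : ¬ (Set.univ : Set W).Countable)
    (hI : ∀ w : W, (Set.Iic w).Countable) : ∃ e : W → W → ℕ, NoSum (fun v w => e w v) := by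
  have h1 : ∀ w : W, ∃ f : W → ℕ, InjOn f (Set.Iic w) := fun w =>
    Set.countable_iff_exists_injOn.1 (hI w)
  choose e he using h1
  refine ⟨e, ?_⟩
  rintro ⟨g, g', hg⟩
  -- an uncountable fibre of g
  obtain ⟨n, hn⟩ : ∃ n, ¬ {v | g v = n}.Countable := by
    by_contra hcon
    push Not at hcon
    apply hW
    have h2 : (Set.univ : Set W) = ⋃ n, {v | g v = n} := by
      ext v
      simp
    rw [h2]
    exact Set.countable_iUnion hcon
  have hinf : {v | g v = n}.Infinite := fun h => hn h.countable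
  let s : ℕ → W := fun k => (hinf.natEmbedding {v | g v = n} k : W)
  have hs : Function.Injective s := fun i j hij =>
    (hinf.natEmbedding {v | g v = n}).injective (Subtype.ext hij)
  have hsg : ∀ k, g (s k) = n := fun k => (hinf.natEmbedding {v | g v = n} k).2
  obtain ⟨w, hw⟩ : ∃ w, ∀ k, s k ≤ w := by
    by_contra hcon
    push Not at hcon
    apply hW
    have h2 : (Set.univ : Set W) = ⋃ k, Set.Iic (s k) := by
      ext v
      obtain ⟨k, hk⟩ := hcon v
      simp only [Set.mem_univ, Set.mem_iUnion, Set.mem_Iic, true_iff]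
      exact ⟨k, hk.le⟩
    rw [h2]
    exact Set.countable_iUnion (fun k => hI (s k))
  have h3 : ∀ k, e w (s k) ∈ Set.Iic (n + g' w) := by
    intro k
    have := hg (s k) w
    rw [hsg] at this
    exact this
  have h4 : Function.Injective (fun k => e w (s k)) := fun i j hij =>
    hs (he w (hw i) (hw j) hij)
  exact Set.infinite_of_injective_forall_mem h4 h3 (Set.finite_Iic _)

/-- pull back along embeddings -/
theorem nosum_emb {A B A' B' : Type*} [Nonempty A] [Nonempty B] (i : A ↪ A') (j : B ↪ B')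
    (c : A → B → ℕ) (hc : NoSum c) : ∃ c' : A' → B' → ℕ, NoSum c' := by
  refine ⟨fun a b => c (Function.invFun i a) (Function.invFun j b), ?_⟩
  rintro ⟨g, g', hg⟩
  apply hc
  refine ⟨fun a => g (i a), fun b => g' (j b), fun a b => ?_⟩
  have h1 := hg (i a) (j b)
  dsimp only at h1 ⊢
  rwa [Function.leftInverse_invFun i.injective a, Function.leftInverse_invFun j.injective b] at h1

theorem nosum_swap {A B : Type*} (c : A → B → ℕ) (hc : NoSum c) : NoSum (fun b a => c a b) := by
  rintro ⟨g, g', hg⟩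
  exact hc ⟨g', g, fun a b => by rw [add_comm]; exact hg b a⟩

theorem nosum_unbounded : ∃ F : Set (ℕ → ℕ), #F = bounding ∧ F.Nonempty ∧
    NoSum (fun (n : ℕ) (f : F) => (f : ℕ → ℕ) n) := by
  obtain ⟨F, hF, h⟩ := exists_unbounded
  refine ⟨F, hF, ?_, ?_⟩
  · obtain ⟨f, hf, -⟩ := h 0
    exact ⟨f, hf⟩
  · rintro ⟨g, g', hg⟩
    obtain ⟨f, hf, hm⟩ := h (fun n => g n + n)
    obtain ⟨n, hn, hlt⟩ := hm (g' ⟨f, hf⟩)
    have := hg n ⟨f, hf⟩
    dsimp only at this hlt
    omega

/-- **the colourings** -/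
theorem colour (A B : Type) (hA : ℵ₀ ≤ #A) (hB : ℵ₀ ≤ #B)
    (h : ¬ (min #A #B = ℵ₀ ∧ max #A #B < bounding)) : ∃ c : A → B → ℕ, NoSum c := by
  by_cases hmin : min #A #B = ℵ₀
  · have hmax : bounding ≤ max #A #B := by
      by_contra hcon
      exact h ⟨hmin, lt_of_not_ge hcon⟩
    obtain ⟨F, hF, hne, hc⟩ := nosum_unbounded
    haveI : Nonempty F := hne.to_subtype
    rcases le_total #A #B with hAB | hAB
    · rw [max_eq_right hAB] at hmax
      have h1 : #ℕ ≤ #A := by rw [Cardinal.mk_nat]; exact hA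
      have h2 : #F ≤ #B := by rw [hF]; exact hmax
      obtain ⟨i⟩ := h1
      obtain ⟨j⟩ := h2
      exact nosum_emb i j _ hc
    · rw [max_eq_left hAB] at hmax
      have h1 : #ℕ ≤ #B := by rw [Cardinal.mk_nat]; exact hB
      have h2 : #F ≤ #A := by rw [hF]; exact hmax
      obtain ⟨i⟩ := h1
      obtain ⟨j⟩ := h2
      exact nosum_emb j i _ (nosum_swap _ hc)
  · have hlt : ℵ₀ < min #A #B := lt_of_le_of_ne (le_min hA hB) (Ne.symm hmin)
    have hA1 : ℵ₁ ≤ #A := by
      rw [← Cardinal.succ_aleph0]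
      exact Order.succ_le_of_lt (hlt.trans_le (min_le_left _ _))
    have hB1 : ℵ₁ ≤ #B := by
      rw [← Cardinal.succ_aleph0]
      exact Order.succ_le_of_lt (hlt.trans_le (min_le_right _ _))
    let W : Type := (ℵ₁ : Cardinal.{0}).ord.ToType
    have hWc : #W = ℵ₁ := Cardinal.mk_ord_toType _
    have hI : ∀ w : W, (Set.Iic w).Countable := by
      intro w
      have h1 : #(Set.Iio w) < ℵ₁ := Cardinal.mk_Iio_ord_toType w
      have h2 : (Set.Iio w).Countable := Cardinal.countable_iff_lt_aleph_one _ |>.2 h1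
      rw [← Set.Iio_union_right]
      exact h2.union (Set.countable_singleton w)
    have hW : ¬ (Set.univ : Set W).Countable := by
      rw [Cardinal.countable_iff_lt_aleph_one, Cardinal.mk_univ, hWc]
      exact lt_irrefl _
    haveI : Nonempty W := by
      by_contra hcon
      rw [not_nonempty_iff] at hcon
      apply hW
      rw [Set.univ_eq_empty_iff.2 hcon]
      exact Set.countable_empty
    obtain ⟨e, he⟩ := nosum_omega hW hI
    rw [← hWc] at hA1 hB1
    obtain ⟨i⟩ := hA1
    obtain ⟨j⟩ := hB1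
    exact nosum_emb i j _ he

end Pool.Agent.Helper5_DF7
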