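import Pool.Agent.Helper93_SMZ.Final

/-!
# MP_df7fe8_co: distributive lattices with finite intervals and given coinitiality and cofinality
-/

set_option autoImplicit false

namespace Pool.Agent.Helper5_DF7

open Set Cardinal

universe u

section
variable {M : Type u} [Lattice M] {a b : M} (hab : a < b) {A B : Type u}

open Classical in
/-- the element with the data `G`, `F` -/
noncomputable def dval (a b : M) (G : Finset A) (F : Finset B) : A ⊕ B → M :=
  Sum.elim (fun x => if x ∈ G then a else b) (fun y => if y ∈ F then b else a)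

include hab in
theorem dval_le_iff {G G' : Finset A} {F F' : Finset B} :
    dval a b G F ≤ dval a b G' F' ↔ G' ⊆ G ∧ F ⊆ F' := by
  constructor
  · intro h
    constructor
    · intro x hx
      by_contra hx'
      have h1 := h (Sum.inl x)
      simp only [dval, Sum.elim_inl, if_pos hx, if_neg hx'] at h1
      exact absurd h1 (not_le_of_gt hab)
    · intro y hy
      by_contra hy'
      have h1 := h (Sum.inr y)
      simp only [dval, Sum.elim_inr, if_pos hy, if_neg hy'] at h1
      exact absurd h1 (not_le_of_gt hab)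
  · rintro ⟨hG, hF⟩ (x | y)
    · simp only [dval, Sum.elim_inl]
      by_cases h1 : x ∈ G'
      · rw [if_pos h1, if_pos (hG h1)]
      · rw [if_neg h1]
        split_ifs
        · exact hab.le
        · exact le_rfl
    · simp only [dval, Sum.elim_inr]
      by_cases h1 : y ∈ F
      · rw [if_pos h1, if_pos (hF h1)]
      · rw [if_neg h1]
        split_ifs
        · exact hab.le
        · exact le_rfl

/-- the lattice -/
def DL (hab : a < b) (A B : Type u) : Sublattice (A ⊕ B → M) where
  carrier := Set.range (fun q : Finset A × Finset B => dval a b q.1 q.2)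
  supClosed' := by
    classical
    rintro _ ⟨⟨G, F⟩, rfl⟩ _ ⟨⟨G', F'⟩, rfl⟩
    refine ⟨(G ∩ G', F ∪ F'), ?_⟩
    funext q
    rcases q with x | y
    · simp only [dval, Sum.elim_inl, Pi.sup_apply, Finset.mem_inter]
      by_cases h1 : x ∈ G <;> by_cases h2 : x ∈ G' <;> simp [h1, h2, hab.le]
    · simp only [dval, Sum.elim_inr, Pi.sup_apply, Finset.mem_union]
      by_cases h1 : y ∈ F <;> by_cases h2 : y ∈ F' <;> simp [h1, h2, hab.le]
  infClosed' := by
    classical
    rintro _ ⟨⟨G, F⟩, rfl⟩ _ ⟨⟨G', F'⟩, rfl⟩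
    refine ⟨(G ∪ G', F ∩ F'), ?_⟩
    funext q
    rcases q with x | y
    · simp only [dval, Sum.elim_inl, Pi.inf_apply, Finset.mem_union]
      by_cases h1 : x ∈ G <;> by_cases h2 : x ∈ G' <;> simp [h1, h2, hab.le]
    · simp only [dval, Sum.elim_inr, Pi.inf_apply, Finset.mem_inter]
      by_cases h1 : y ∈ F <;> by_cases h2 : y ∈ F' <;> simp [h1, h2, hab.le]

/-- the parametrisation -/
noncomputable def dpar (hab : a < b) (G : Finset A) (F : Finset B) : DL hab A B :=
  ⟨dval a b G F, (G, F), rfl⟩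

theorem dpar_le_iff {G G' : Finset A} {F F' : Finset B} :
    dpar hab G F ≤ dpar hab G' F' ↔ G' ⊆ G ∧ F ⊆ F' := dval_le_iff hab

theorem dpar_surj (z : DL hab A B) : ∃ G F, z = dpar hab G F := by
  obtain ⟨_, ⟨⟨G, F⟩, rfl⟩⟩ := z
  exact ⟨G, F, rfl⟩

end

theorem exists_distr {M : Type u} [Lattice M] [Nontrivial M] (A B : Type u) [Infinite A]
    [Infinite B] : ∃ (ι : Type u) (S : Sublattice (ι → M)), (∀ x y : S, (Set.Icc x y).Finite) ∧
      SMZ.coinit S = Cardinal.mk A ∧ SMZ.cofin S = Cardinal.mk B ∧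
      ∃ g : ℤ → S, StrictMono g := by
  classical
  obtain ⟨a, b, hab⟩ : ∃ a b : M, a < b := by
    obtain ⟨x, y, hxy⟩ := exists_pair_ne M
    by_cases h : x ≤ y
    · exact ⟨x, y, lt_of_le_of_ne h hxy⟩
    · refine ⟨x ⊓ y, x, lt_of_le_of_ne inf_le_left ?_⟩
      intro he
      exact h (inf_eq_left.1 he)
  refine ⟨A ⊕ B, DL hab A B, ?_, ?_, ?_, ?_⟩
  · intro x y
    obtain ⟨G, F, rfl⟩ := dpar_surj hab x
    obtain ⟨G', F', rfl⟩ := dpar_surj hab y
    refine Set.Finite.subset (Set.Finite.image (fun q : Finset A × Finset B => dpar hab q.1 q.2)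
      ((G.powerset ×ˢ F'.powerset).finite_toSet)) ?_
    intro z hz
    obtain ⟨G'', F'', rfl⟩ := dpar_surj hab z
    have h1 := (dpar_le_iff hab).1 hz.1
    have h2 := (dpar_le_iff hab).1 hz.2
    refine ⟨(G'', F''), ?_, rfl⟩
    rw [Finset.mem_coe, Finset.mem_product, Finset.mem_powerset, Finset.mem_powerset]
    exact ⟨h1.1, h2.2⟩
  · apply le_antisymm
    · refine (SMZ.coinit_le (Set.range (fun G : Finset A => dpar hab (B := B) G ∅))
        (fun z => ?_)).trans ?_
      · obtain ⟨G, F, rfl⟩ := dpar_surj hab z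
        exact ⟨_, ⟨G, rfl⟩, (dpar_le_iff hab).2 ⟨subset_rfl, Finset.empty_subset _⟩⟩
      · refine Cardinal.mk_range_le.trans ?_
        rw [Cardinal.mk_finset_of_infinite]
    · obtain ⟨D, hD, hD2⟩ := SMZ.coinit_spec (DL hab A B)
      rw [← hD]
      have hz : ∀ z : D, ∃ (G : Finset A) (F : Finset B), (z : DL hab A B) = dpar hab G F :=
        fun z => dpar_surj hab z.1
      choose G F hGF using hz
      refine SMZ.cover_le G (fun x => ?_)
      obtain ⟨z, hz, hzx⟩ := hD2 (dpar hab {x} ∅)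
      refine ⟨⟨z, hz⟩, ?_⟩
      have h1 : dpar hab (G ⟨z, hz⟩) (F ⟨z, hz⟩) ≤ dpar hab {x} ∅ := by
        rw [← hGF ⟨z, hz⟩]
        exact hzx
      exact ((dpar_le_iff hab).1 h1).1 (Finset.mem_singleton_self x)
  · apply le_antisymm
    · refine (SMZ.cofin_le (Set.range (fun F : Finset B => dpar hab (A := A) ∅ F))
        (fun z => ?_)).trans ?_
      · obtain ⟨G, F, rfl⟩ := dpar_surj hab z
        exact ⟨_, ⟨F, rfl⟩, (dpar_le_iff hab).2 ⟨Finset.empty_subset _, subset_rfl⟩⟩
      · refine Cardinal.mk_range_le.trans ?_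
        rw [Cardinal.mk_finset_of_infinite]
    · obtain ⟨D, hD, hD2⟩ := SMZ.cofin_spec (DL hab A B)
      rw [← hD]
      have hz : ∀ z : D, ∃ (G : Finset A) (F : Finset B), (z : DL hab A B) = dpar hab G F :=
        fun z => dpar_surj hab z.1
      choose G F hGF using hz
      refine SMZ.cover_le F (fun y => ?_)
      obtain ⟨z, hz, hzy⟩ := hD2 (dpar hab ∅ {y})
      refine ⟨⟨z, hz⟩, ?_⟩
      have h1 : dpar hab ∅ {y} ≤ dpar hab (G ⟨z, hz⟩) (F ⟨z, hz⟩) := by
        rw [← hGF ⟨z, hz⟩]
        exact hzy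
      exact ((dpar_le_iff hab).1 h1).2 (Finset.mem_singleton_self y)
  · obtain ⟨i⟩ : Nonempty (ℕ ↪ A) := ⟨Infinite.natEmbedding A⟩
    obtain ⟨j⟩ : Nonempty (ℕ ↪ B) := ⟨Infinite.natEmbedding B⟩
    refine ⟨fun k => dpar hab ((Finset.range (-k).toNat).map i)
      ((Finset.range k.toNat).map j), ?_⟩
    intro k l hkl
    refine lt_of_le_of_ne ((dpar_le_iff hab).2 ⟨?_, ?_⟩) ?_
    · exact Finset.map_subset_map.2 (Finset.range_subset_range.2 (by omega))
    · exact Finset.map_subset_map.2 (Finset.range_subset_range.2 (by omega))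
    · intro he
      obtain ⟨h1, h2⟩ := (dpar_le_iff hab).1 he.ge
      have h3 := Finset.card_le_card h1
      have h4 := Finset.card_le_card h2
      rw [Finset.card_map, Finset.card_map, Finset.card_range, Finset.card_range] at h3 h4
      omega

end Pool.Agent.Helper5_DF7
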