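import Pool.Agent.Helper5_DF7.Chain
import Pool.Agent.Helper93_SMZ.Pent

/-!
# MP_df7fe8_co: the lattices inside the powers of a nonmodular lattice
-/

set_option autoImplicit false

namespace Pool.Agent.Helper5_DF7

open Set Pool.Agent.SMZ

universe u v

section
variable {M : Type u} [Lattice M] (p : Pent M) {X Y : Type u} (n : X → Y → ℕ)

/-- the elements `e(G, F)` -/
noncomputable def eGF (G : Finset X) (F : Finset Y) : LL p n :=
  ⟨valf p G F ∅, valf_mem p n G F ∅ (fun _ h => absurd h (Finset.notMem_empty _))⟩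

theorem eGF_anti [Infinite Y] {G G' : Finset X} (F : Finset Y) (h : G ⊂ G') :
    eGF p n G' F < eGF p n G F := by
  obtain ⟨x, hx, hx'⟩ := Finset.exists_of_ssubset h
  obtain ⟨y, hy⟩ := Infinite.exists_notMem_finset F
  have hle : valf p G' F ∅ ≤ valf p G F ∅ :=
    valf_mono p h.subset subset_rfl subset_rfl
  refine lt_of_le_of_ne hle ?_
  intro he
  have h1 : valf p G' F ∅ (x, y, 0) = valf p G F ∅ (x, y, 0) :=
    congrFun (congrArg Subtype.val he) (x, y, 0)
  simp only [valf, hx, hx', hy, if_true, if_false] at h1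
  exact p.not_b_le_o h1.ge

theorem eGF_mono [Infinite X] (G : Finset X) {F F' : Finset Y} (h : F ⊂ F') :
    eGF p n G F < eGF p n G F' := by
  obtain ⟨y, hy, hy'⟩ := Finset.exists_of_ssubset h
  obtain ⟨x, hx⟩ := Infinite.exists_notMem_finset G
  have hle : valf p G F ∅ ≤ valf p G F' ∅ :=
    valf_mono p subset_rfl h.subset subset_rfl
  refine lt_of_le_of_ne hle ?_
  intro he
  have h1 : valf p G F ∅ (x, y, 0) = valf p G F' ∅ (x, y, 0) :=
    congrFun (congrArg Subtype.val he) (x, y, 0)
  simp only [valf, hx, hy, hy', if_true, if_false] at h1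
  exact p.not_t_le_b h1.ge

theorem chE_le {G G' : Finset X} {F' : Finset Y} {x : X} (y : Y) (i : ℕ) (h : G ⊆ G')
    (hx : x ∉ G) : chE p G' F' x y i ≤ valf p G F' ∅ := by
  classical
  refine valf_mono' p h subset_rfl ?_
  intro q hq hqG
  obtain ⟨j, -, rfl⟩ := Finset.mem_image.1 hq
  exact absurd hqG hx

theorem eGF_chain [DecidableEq X] [DecidableEq Y] (G : Finset X) (F : Finset Y) (x : X) (y : Y) (hx : x ∉ G) :
    ∃ z : ℕ → LL p n, (∀ i < n x y, z i < z (i + 1)) ∧ eGF p n (insert x G) F ≤ z 0 ∧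
      z (n x y) ≤ eGF p n G (insert y F) := by
  refine ⟨fun i => ⟨chE p (insert x G) (insert y F) x y (min i (n x y)),
    chE_mem p n _ _ _ _ _ (min_le_right _ _)⟩, ?_, ?_, ?_⟩
  · intro i hi
    have h1 : min i (n x y) = i := min_eq_left hi.le
    have h2 : min (i + 1) (n x y) = i + 1 := min_eq_left hi
    show chE p (insert x G) (insert y F) x y (min i (n x y)) <
      chE p (insert x G) (insert y F) x y (min (i + 1) (n x y))
    rw [h1, h2]
    exact chE_lt p (Finset.mem_insert_self x G) (Finset.mem_insert_self y F) i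
  · show valf p (insert x G) F ∅ ≤ chE p (insert x G) (insert y F) x y (min 0 (n x y))
    exact valf_mono p subset_rfl (Finset.subset_insert y F) (Finset.empty_subset _)
  · show chE p (insert x G) (insert y F) x y (min (n x y) (n x y)) ≤ valf p G (insert y F) ∅
    exact chE_le p y _ (Finset.subset_insert x G) hx

end

/-! ## three chains -/

/-- the index types -/
abbrev XU : Type u := ULift.{u} X0
/-- the index types -/
abbrev YU : Type u := ULift.{u} Y0

/-- the matrix in the universe `u` -/
def nU : XU.{u} → YU.{u} → ℕ := fun x y => n0 x.down y.down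

instance infXU : Infinite XU.{u} := by
  have : Function.Injective (fun k : ℕ => (ULift.up (Sum.inl k : X0) : XU.{u})) := by
    intro a b h
    exact Sum.inl_injective (ULift.up_injective h)
  exact Infinite.of_injective _ this

instance infYU : Infinite YU.{u} := by
  have : Function.Injective (fun k : ℕ → ℕ => (ULift.up (Sum.inl k : Y0) : YU.{u})) := by
    intro a b h
    exact Sum.inl_injective (ULift.up_injective h)
  exact Infinite.of_injective _ this

/-- the embedding of the index sets -/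
def upE (A : Type) : A ↪ ULift.{u} A := ⟨ULift.up, ULift.up_injective⟩

theorem map_insert_up {A : Type} [DecidableEq A] [DecidableEq (ULift.{u} A)] (x : A) (G : Finset A) :
    (insert x G).map (upE.{u} A) = insert (ULift.up x) (G.map (upE.{u} A)) := by
  rw [Finset.map_insert]
  rfl

theorem notMem_map_up {A : Type} {x : A} {G : Finset A} (h : x ∉ G) :
    (ULift.up x : ULift.{u} A) ∉ G.map (upE.{u} A) := by
  intro hx
  obtain ⟨y, hy, hxy⟩ := Finset.mem_map.1 hx
  have h1 : y = x := ULift.up_injective hxy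
  exact h (h1 ▸ hy)

/-- a chain into which the big lattice has a strictly monotone map contains one of the three
chains -/
theorem three {M : Type u} [Lattice M] (p : Pent M) {C : Type v} [LinearOrder C]
    (f : LL p nU.{u} → C) (hf : StrictMono f) : E1 C ∨ E2 C ∨ E3 C := by
  classical
  refine main_abs n0 (fun k => Sum.inl k) Sum.inl_injective n0_first n0_second
    (fun G F => f (eGF p nU.{u} (G.map (upE.{u} X0)) (F.map (upE.{u} Y0)))) ?_ ?_ ?_
  · intro F G G' h
    exact hf (eGF_anti p nU.{u} _ (Finset.map_ssubset_map.2 h))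
  · intro G F F' h
    exact hf (eGF_mono p nU.{u} _ (Finset.map_ssubset_map.2 h))
  · intro G F x y hx hy
    obtain ⟨z, hz, hz0, hz1⟩ := eGF_chain p nU.{u} (G.map (upE.{u} X0)) (F.map (upE.{u} Y0))
      (ULift.up x) (ULift.up y) (notMem_map_up hx)
    refine ⟨fun i => f (z i), fun i hi => hf (hz i hi), ?_, ?_⟩
    · rw [map_insert_up]
      exact hf.monotone hz0
    · rw [map_insert_up]
      exact hf.monotone hz1

/-! ## finite sums of copies of the integers -/

/-- first version: `X` countable -/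
theorem no_fin_LL {M : Type u} [Lattice M] (p : Pent M) {Y : Type u} (n : ULift.{u} ℕ → Y → ℕ)
    (hn : ¬ ∃ g : ℕ → ℕ, ∀ y, ∀ᶠ k in Filter.atTop, n (ULift.up k) y ≤ g k)
    (k : ℕ) (f : LL p n → Fin k ×ₗ ℤ) (hf : StrictMono f) : False := by
  classical
  refine no_fin (fun x y => n (ULift.up x) y) ?_
    (fun G F => eGF p n (G.map (upE.{u} ℕ)) F) ?_ k f hf
  · rintro ⟨g, hg⟩
    exact hn ⟨g, fun y => Filter.eventually_atTop.2 (hg y)⟩
  · intro G F x y hx _
    obtain ⟨z, hz, hz0, hz1⟩ := eGF_chain p n (G.map (upE.{u} ℕ)) F (ULift.up x) y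
      (notMem_map_up hx)
    refine ⟨z, hz, ?_, hz1⟩
    rw [map_insert_up]
    exact hz0

/-- second version: `Y` countable -/
theorem no_fin_LL' {M : Type u} [Lattice M] (p : Pent M) {X : Type u} (n : X → ULift.{u} ℕ → ℕ)
    (hn : ¬ ∃ g : ℕ → ℕ, ∀ x, ∀ᶠ k in Filter.atTop, n x (ULift.up k) ≤ g k)
    (k : ℕ) (f : LL p n → Fin k ×ₗ ℤ) (hf : StrictMono f) : False := by
  classical
  refine no_fin (L := (LL p n)ᵒᵈ) (fun y x => n x (ULift.up y)) ?_
    (fun G F => OrderDual.toDual (eGF p n F (G.map (upE.{u} ℕ)))) ?_ k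
    (fun x => toLex ((Fin.rev (ofLex (f (OrderDual.ofDual x))).1),
      - (ofLex (f (OrderDual.ofDual x))).2)) ?_
  · rintro ⟨g, hg⟩
    exact hn ⟨g, fun y => Filter.eventually_atTop.2 (hg y)⟩
  · intro G F y x hy hx
    obtain ⟨z, hz, hz0, hz1⟩ := eGF_chain p n F (G.map (upE.{u} ℕ)) x (ULift.up y) hx
    refine ⟨fun i => OrderDual.toDual (z (n x (ULift.up y) - i)), ?_, ?_, ?_⟩
    · intro i hi
      show z (n x (ULift.up y) - (i + 1)) < z (n x (ULift.up y) - i)
      have h1 := hz (n x (ULift.up y) - (i + 1)) (by omega)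
      rwa [show n x (ULift.up y) - (i + 1) + 1 = n x (ULift.up y) - i by omega] at h1
    · show z (n x (ULift.up y) - 0) ≤ eGF p n F ((insert y G).map (upE.{u} ℕ))
      rw [map_insert_up]
      exact hz1
    · show eGF p n (insert x F) (G.map (upE.{u} ℕ)) ≤ z (n x (ULift.up y) - n x (ULift.up y))
      rw [Nat.sub_self]
      exact hz0
  · intro a b hab
    have h1 : f (OrderDual.ofDual b) < f (OrderDual.ofDual a) := hf hab
    rw [Prod.Lex.lt_iff] at h1
    rw [Prod.Lex.toLex_lt_toLex]
    rcases h1 with h | ⟨h, h'⟩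
    · exact Or.inl (Fin.rev_lt_rev.2 h)
    · refine Or.inr ⟨?_, ?_⟩
      · dsimp only
        rw [h]
      · dsimp only
        omega

end Pool.Agent.Helper5_DF7
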