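import Pool.Agent.Helper5_DF7.Basic
import Pool.Agent.Helper93_SMZ.Core

/-!
# MP_df7fe8_co: no finite sum of copies of the integers is enough (abstract part)
-/

set_option autoImplicit false

namespace Pool.Agent.Helper5_DF7

open Cardinal Set

/-- **H2 (i)** for the definition of `SMZ` -/
theorem lexSMZ {L : Type*} [SemilatticeInf L] (hb : Pool.Agent.SMZ.LocChainBdd L) :
    ∃ f : L → ℤ ×ₗ ℤ, StrictMono f := by
  refine lex (L := L) ?_
  intro x y hxy
  obtain ⟨n, hn⟩ := hb x y hxy
  exact ⟨n, fun s hs hsub => hn s hsub hs⟩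

theorem countable_bound {I : Type*} [Countable I] (w : I → ℕ → ℕ) :
    ∃ g : ℕ → ℕ, ∀ i, ∃ K : ℕ, ∀ n ≥ K, w i n ≤ g n := by
  obtain ⟨enc, henc⟩ := exists_injective_nat I
  classical
  refine ⟨fun n => ∑ k ∈ Finset.range (n + 1),
    if h : ∃ i, enc i = k then w h.choose n else 0, fun i => ⟨enc i, fun n hn => ?_⟩⟩
  have hex : ∃ i', enc i' = enc i := ⟨i, rfl⟩
  have h1 : hex.choose = i := henc hex.choose_spec
  have h2 := Finset.single_le_sum
    (f := fun k => if h : ∃ i, enc i = k then w h.choose n else 0)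
    (fun _ _ => Nat.zero_le _) (Finset.mem_range.2 (Nat.lt_succ_of_le hn))
  rw [dif_pos hex, h1] at h2
  exact h2

/-- **H2 (ii)**, abstract form -/
theorem no_fin {L : Type*} [PartialOrder L] {Y : Type*} [DecidableEq Y] (n : ℕ → Y → ℕ)
    (hn : ¬ ∃ g : ℕ → ℕ, ∀ y, ∃ K : ℕ, ∀ k ≥ K, n k y ≤ g k)
    (e : Finset ℕ → Finset Y → L)
    (he : ∀ (G : Finset ℕ) (F : Finset Y) (x : ℕ) (y : Y), x ∉ G → y ∉ F →
      ∃ z : ℕ → L, (∀ i < n x y, z i < z (i + 1)) ∧ e (insert x G) F ≤ z 0 ∧
        z (n x y) ≤ e G (insert y F))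
    (k : ℕ) (f : L → Fin k ×ₗ ℤ) (hf : StrictMono f) : False := by
  obtain ⟨I, hI⟩ : ∃ I : L → ℕ, ∀ x, I x = ((ofLex (f x)).1 : ℕ) := ⟨_, fun _ => rfl⟩
  obtain ⟨V, hV⟩ : ∃ V : L → ℤ, ∀ x, V x = (ofLex (f x)).2 := ⟨_, fun _ => rfl⟩
  have hlt : ∀ {x y : L}, x < y → I x < I y ∨ (I x = I y ∧ V x < V y) := by
    intro x y hxy
    have h := hf hxy
    rw [Prod.Lex.lt_iff] at h
    rw [hI, hI, hV, hV]
    rcases h with h | ⟨h, h'⟩
    · exact Or.inl h
    · exact Or.inr ⟨congrArg Fin.val h, h'⟩
  have hle : ∀ {x y : L}, x ≤ y → I x < I y ∨ (I x = I y ∧ V x ≤ V y) := by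
    intro x y hxy
    rcases hxy.lt_or_eq with h | h
    · rcases hlt h with h' | ⟨h1, h2⟩
      · exact Or.inl h'
      · exact Or.inr ⟨h1, h2.le⟩
    · rw [h]
      exact Or.inr ⟨rfl, le_rfl⟩
  have hleI : ∀ {x y : L}, x ≤ y → I x ≤ I y := by
    intro x y hxy
    rcases hle hxy with h | h
    · exact h.le
    · exact h.1.le
  have hleV : ∀ {x y : L}, x ≤ y → I y ≤ I x → V x ≤ V y := by
    intro x y hxy hI'
    rcases hle hxy with h | h
    · omega
    · exact h.2
  have hmain : ∀ j : ℕ, ∃ F : Finset Y, ∀ G : Finset ℕ, j ≤ I (e G F) := by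
    intro j
    induction j with
    | zero => exact ⟨∅, fun _ => Nat.zero_le _⟩
    | succ j ih =>
      obtain ⟨F, hF⟩ := ih
      obtain ⟨g, hg⟩ := countable_bound
        (fun (G : Finset ℕ) (x : ℕ) => (V (e (insert x G) F)).natAbs + x)
      obtain ⟨y, hy⟩ : ∃ y, ∀ K : ℕ, ∃ x ≥ K, g x + ∑ y' ∈ F, n x y' < n x y := by
        by_contra hcon
        push Not at hcon
        exact hn ⟨fun x => g x + ∑ y' ∈ F, n x y', hcon⟩
      have hyF : y ∉ F := by
        intro h
        obtain ⟨x, -, hx⟩ := hy 0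
        have := Finset.single_le_sum (f := fun y' => n x y') (fun _ _ => Nat.zero_le _) h
        omega
      refine ⟨insert y F, fun G => ?_⟩
      by_contra hcon
      obtain ⟨K, hK⟩ := hg G
      obtain ⟨x, hxK, hx⟩ := hy (K + (G.sup id + 1) + (V (e G (insert y F))).natAbs)
      have hxG : x ∉ G := by
        intro h
        have : x ≤ G.sup id := Finset.le_sup (f := id) h
        omega
      have h1 := hK x (by omega)
      obtain ⟨z, hz, hz0, hzn⟩ := he G F x y hxG hyF
      have h2 := hF (insert x G)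
      have hmono : ∀ i ≤ n x y, z 0 ≤ z i := by
        intro i
        induction i with
        | zero => intro _; exact le_rfl
        | succ i ih => intro hi; exact (ih (by omega)).trans (hz i (by omega)).le
      have hup : ∀ i ≤ n x y, z i ≤ z (n x y) := by
        intro i hi
        have : ∀ d, i + d ≤ n x y → z i ≤ z (i + d) := by
          intro d
          induction d with
          | zero => intro _; exact le_rfl
          | succ d ih => intro hd; exact (ih (by omega)).trans (hz (i + d) (by omega)).le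
        have h3 := this (n x y - i) (by omega)
        rwa [Nat.add_sub_cancel' hi] at h3
      have hIz : ∀ i ≤ n x y, I (z i) = j := by
        intro i hi
        have h3 := hleI hz0
        have h4 := hleI (hmono i hi)
        have h5 := hleI (hup i hi)
        have h6 := hleI hzn
        omega
      have hVz : ∀ i ≤ n x y, V (z 0) + i ≤ V (z i) := by
        intro i
        induction i with
        | zero => intro _; simp
        | succ i ih =>
          intro hi
          have h3 := ih (by omega)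
          have h4 := hlt (hz i (by omega))
          rw [hIz i (by omega), hIz (i + 1) hi] at h4
          push_cast
          omega
      have h7 := hVz (n x y) le_rfl
      have h8 := hleV hz0 (by have := hIz 0 (Nat.zero_le _); omega)
      have h9 := hleV hzn (by have := hIz (n x y) le_rfl; omega)
      omega
  obtain ⟨F, hF⟩ := hmain k
  have h1 := hF ∅
  rw [hI] at h1
  have h2 := (ofLex (f (e ∅ F))).1.isLt
  omega

end Pool.Agent.Helper5_DF7
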