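import Pool.Agent.Helper5_DF7.Basic

/-!
# MP_df7fe8_co: modular lattices, duality, the positive part of the classification
-/

set_option autoImplicit false

namespace Pool.Agent.Helper5_DF7

open Cardinal Set

/-- **modular lattices** -/
theorem modular_pos {L : Type*} [Lattice L] [IsModularLattice L] (hb : LocBdd L) :
    ∃ f : L → ℤ, StrictMono f := by
  rcases isEmpty_or_nonempty L with hL | ⟨⟨o⟩⟩
  · exact ⟨fun x => isEmptyElim x, fun x => isEmptyElim x⟩
  · refine ⟨fun u => (hh o (u ⊔ o) : ℤ) - hh (u ⊓ o) o, ?_⟩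
    intro u v huv
    have h1 : u ⊓ o ≤ v ⊓ o := inf_le_inf_right o huv.le
    have h2 : u ⊔ o ≤ v ⊔ o := sup_le_sup_right huv.le o
    have h3 : hh (v ⊓ o) o ≤ hh (u ⊓ o) o := hh_mono hb h1 le_rfl
    have h4 : hh o (u ⊔ o) ≤ hh o (v ⊔ o) := hh_mono hb le_rfl h2
    dsimp only
    rcases h1.lt_or_eq with h | h
    · have := hh_left hb h (inf_le_right : v ⊓ o ≤ o)
      omega
    · rcases h2.lt_or_eq with h' | h'
      · have := hh_right hb (le_sup_right : o ≤ u ⊔ o) h'
        omega
      · exact absurd (eq_of_le_of_inf_le_of_sup_le huv.le h.ge h'.ge) huv.ne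

theorem locBdd_dual {L : Type*} [PartialOrder L] (hb : LocBdd L) : LocBdd Lᵒᵈ := by
  intro x y hxy
  obtain ⟨n, hn⟩ := hb (OrderDual.ofDual y) (OrderDual.ofDual x) hxy
  refine ⟨n, fun s hs hsub => ?_⟩
  refine hn s ?_ (fun z hz => ⟨(hsub hz).2, (hsub hz).1⟩)
  exact hs.symm

theorem coinit_dual (L : Type) [PartialOrder L] : coinit Lᵒᵈ = cofin L := rfl

theorem cofin_dual (L : Type) [PartialOrder L] : cofin Lᵒᵈ = coinit L := rfl

/-- **the positive part**, dual form -/
theorem pos' {L : Type} [Lattice L] (hb : LocBdd L) (h1 : cofin L ≤ ℵ₀)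
    (h2 : coinit L < bounding) : ∃ f : L → ℤ, StrictMono f := by
  obtain ⟨f, hf⟩ := pos (locBdd_dual hb) ((coinit_dual L).trans_le h1)
    ((cofin_dual L).trans_lt h2)
  refine ⟨fun x => - f (OrderDual.toDual x), fun x y hxy => ?_⟩
  have := hf (show OrderDual.toDual y < OrderDual.toDual x from hxy)
  dsimp only
  omega

/-- **the positive part of the classification** -/
theorem pos_all {L : Type} [Lattice L] (hb : LocBdd L) {κ l : Cardinal.{0}}
    (h : min κ l = ℵ₀ ∧ max κ l < bounding) (h1 : coinit L ≤ κ) (h2 : cofin L ≤ l) :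
    ∃ f : L → ℤ, StrictMono f := by
  obtain ⟨hmin, hmax⟩ := h
  rcases le_total κ l with hkl | hkl
  · rw [min_eq_left hkl] at hmin
    rw [max_eq_right hkl] at hmax
    exact pos hb (h1.trans hmin.le) (h2.trans_lt hmax)
  · rw [min_eq_right hkl] at hmin
    rw [max_eq_left hkl] at hmax
    exact pos' hb (h2.trans hmin.le) (h1.trans_lt hmax)

end Pool.Agent.Helper5_DF7
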