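import Pool.Agent.Helper5_DF7.Chain3
import Pool.Agent.Helper64_DF7.Maps4
import Pool.Agent.Helper5_DF7.Distr

/-!
# MP_df7fe8_co: the classification of the chains
-/

set_option autoImplicit false

namespace Pool.Agent.Helper5_DF7

open Set OrderDual Pool.Agent.SMZ Cardinal

universe u v

theorem exists_map_E1 {L : Type u} [Lattice L] (hL : LocChainBdd L) {C : Type v} [LinearOrder C]
    (h : E1 C) : ∃ f : L → C, StrictMono f := by
  obtain ⟨f, hf⟩ := Helper64_DF7.enough1 hL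
  obtain ⟨g, hg⟩ := h
  exact ⟨g ∘ f, hg.comp hf⟩

theorem exists_map_E2 {L : Type u} [Lattice L] (hL : LocChainBdd L) {C : Type v} [LinearOrder C]
    (h : E2 C) : ∃ f : L → C, StrictMono f := by
  obtain ⟨f, hf⟩ := Helper64_DF7.enough2 hL
  obtain ⟨g, hg⟩ := h
  exact ⟨g ∘ f, hg.comp hf⟩

theorem exists_map_E3 {L : Type u} [Lattice L] (hL : LocChainBdd L) {C : Type v} [LinearOrder C]
    (h : E3 C) : ∃ f : L → C, StrictMono f := by
  obtain ⟨f, hf⟩ := Helper64_DF7.enough3 hL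
  obtain ⟨g, hg⟩ := h
  exact ⟨g ∘ f, hg.comp hf⟩

theorem exists_map_E4 {L : Type u} [Lattice L] (hL : LocChainBdd L) (hc : SMZ.coinit L = ℵ₀)
    {C : Type v} [LinearOrder C] (h : E4 C) : ∃ f : L → C, StrictMono f := by
  obtain ⟨D, hD, hD2⟩ := SMZ.coinit_spec L
  rw [hc] at hD
  obtain ⟨f, hf⟩ := Helper64_DF7.enough4 hL D (Cardinal.le_aleph0_iff_set_countable.1 hD.le) hD2
  obtain ⟨g, hg⟩ := h
  exact ⟨g ∘ f, hg.comp hf⟩

theorem exists_map_E5 {L : Type u} [Lattice L] (hL : LocChainBdd L) (hc : SMZ.cofin L = ℵ₀)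
    {C : Type v} [LinearOrder C] (h : E5 C) : ∃ f : L → C, StrictMono f := by
  obtain ⟨D, hD, hD2⟩ := SMZ.cofin_spec L
  rw [hc] at hD
  obtain ⟨f, hf⟩ := Helper64_DF7.enough5 hL D (Cardinal.le_aleph0_iff_set_countable.1 hD.le) hD2
  obtain ⟨g, hg⟩ := h
  exact ⟨g ∘ f, hg.comp hf⟩

theorem exists_map_Z {L : Type u} [Lattice L] (hL : HasIntMap L) {C : Type v} [LinearOrder C]
    (h : ∃ g : ℤ → C, StrictMono g) : ∃ f : L → C, StrictMono f := by
  obtain ⟨f, hf⟩ := hL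
  obtain ⟨g, hg⟩ := h
  exact ⟨g ∘ f, hg.comp hf⟩

/-- one lattice with finite intervals, coinitiality `κ` and cofinality `μ` decides which chains are
enough -/
theorem neg_all (K : (α : Type u) → [Lattice α] → Prop) (hK : PowerClosed K)
    (hne : ∃ (M : Type u) (_ : Lattice M), K M ∧ Nontrivial M) {κ μ : Cardinal.{u}}
    (hκ : ℵ₀ ≤ κ) (hμ : ℵ₀ ≤ μ)
    (h : min κ μ = ℵ₀ ∨ (bnum.{u} ≤ min κ μ ∧ 2 ^ bnum.{u} ≤ max κ μ)) :
    ∃ (L : Type u) (_ : Lattice L), K L ∧ (∀ x y : L, (Set.Icc x y).Finite) ∧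
      SMZ.coinit L = κ ∧ SMZ.cofin L = μ ∧
      ∀ (C : Type v) [LinearOrder C] (f : L → C), StrictMono f →
        (E1 C ∨ E2 C ∨ E3 C ∨ (κ = ℵ₀ ∧ E4 C) ∨ (μ = ℵ₀ ∧ E5 C) ∨
          (((∀ (L : Type u) [Lattice L], K L → IsModularLattice L) ∨ max κ μ < bnum.{u}) ∧
            ∃ g : ℤ → C, StrictMono g)) := by
  by_cases hcase : (∀ (L : Type u) [Lattice L], K L → IsModularLattice L) ∨ max κ μ < bnum.{u}
  · obtain ⟨M, iM, hM, hM2⟩ := hne
    have hX' : #κ.out = κ := Cardinal.mk_out κ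
    have hY' : #μ.out = μ := Cardinal.mk_out μ
    have : Infinite κ.out := Cardinal.infinite_iff.2 (by rw [hX']; exact hκ)
    have : Infinite μ.out := Cardinal.infinite_iff.2 (by rw [hY']; exact hμ)
    obtain ⟨ι, S, a1, a2, a3, g, hg⟩ := exists_distr (M := M) κ.out μ.out
    refine ⟨S, inferInstance, hK S M ι hM S.subtype Subtype.val_injective, a1, ?_, ?_, ?_⟩
    · rw [a2, hX']
    · rw [a3, hY']
    · intro C _ f hf
      exact Or.inr (Or.inr (Or.inr (Or.inr (Or.inr ⟨hcase, ⟨f ∘ g, hf.comp hg⟩⟩))))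
  · rw [not_or] at hcase
    obtain ⟨hmod, hb⟩ := hcase
    push Not at hmod
    obtain ⟨M, iM, hM, hmod⟩ := hmod
    obtain ⟨ι, S, a1, a2, a3, a4⟩ := neg_part hmod hκ hμ (not_lt.1 hb) h
    refine ⟨S, inferInstance, hK S M ι hM S.subtype Subtype.val_injective, a1, a2, a3, ?_⟩
    intro C _ f hf
    rcases a4 C f hf with h1 | h1 | h1 | h1 | h1
    · exact Or.inl h1
    · exact Or.inr (Or.inl h1)
    · exact Or.inr (Or.inr (Or.inl h1))
    · exact Or.inr (Or.inr (Or.inr (Or.inl h1)))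
    · exact Or.inr (Or.inr (Or.inr (Or.inr (Or.inl h1))))

theorem pos_all (K : (α : Type u) → [Lattice α] → Prop) {κ μ : Cardinal.{u}}
    (h : min κ μ = ℵ₀ ∨ (bnum.{u} ≤ min κ μ ∧ 2 ^ bnum.{u} ≤ max κ μ))
    (C : Type v) [LinearOrder C]
    (hC : E1 C ∨ E2 C ∨ E3 C ∨ (κ = ℵ₀ ∧ E4 C) ∨ (μ = ℵ₀ ∧ E5 C) ∨
          (((∀ (L : Type u) [Lattice L], K L → IsModularLattice L) ∨ max κ μ < bnum.{u}) ∧
            ∃ g : ℤ → C, StrictMono g))
    (L : Type u) [Lattice L] (hKL : K L) (hL : LocChainBdd L) (h1 : SMZ.coinit L = κ)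
    (h2 : SMZ.cofin L = μ) : ∃ f : L → C, StrictMono f := by
  rcases hC with h5 | h5 | h5 | ⟨h5, h6⟩ | ⟨h5, h6⟩ | ⟨h5, h6⟩
  · exact exists_map_E1 hL h5
  · exact exists_map_E2 hL h5
  · exact exists_map_E3 hL h5
  · exact exists_map_E4 hL (h1.trans h5) h6
  · exact exists_map_E5 hL (h2.trans h5) h6
  · rcases h5 with h5 | h5
    · have := h5 L hKL
      exact exists_map_Z (hasIntMap_of_modular hL) h6
    · refine exists_map_Z (pos_cardinals L hL ?_) h6
      rw [h1, h2]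
      rcases h with h | ⟨h, -⟩
      · rcases le_total κ μ with h3 | h3
        · rw [min_eq_left h3] at h
          rw [max_eq_right h3] at h5
          exact Or.inr (Or.inr (Or.inl ⟨h, h5⟩))
        · rw [min_eq_right h3] at h
          rw [max_eq_left h3] at h5
          exact Or.inr (Or.inr (Or.inr ⟨h, h5⟩))
      · exact absurd (h.trans (min_le_max)) (not_le_of_gt h5)

theorem bnum_ge : ℵ₀ ≤ bnum.{u} := by
  obtain ⟨I, φ, hI, hφ⟩ := SMZ.exists_unbounded.{u}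
  rw [← hI]
  exact (unbounded_infinite φ hφ).le

/-- the unrestricted version, negative part -/
theorem neg_free (K : (α : Type u) → [Lattice α] → Prop) (hK : PowerClosed K)
    (hne : ∃ (M : Type u) (_ : Lattice M), K M ∧ Nontrivial M) :
    ∃ (L : Type u) (_ : Lattice L), K L ∧ (∀ x y : L, (Set.Icc x y).Finite) ∧
      ∀ (C : Type v) [LinearOrder C] (f : L → C), StrictMono f →
        (E1 C ∨ E2 C ∨ E3 C ∨ ((∀ (L : Type u) [Lattice L], K L → IsModularLattice L) ∧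
            ∃ g : ℤ → C, StrictMono g)) := by
  have hb : bnum.{u} ≤ 2 ^ bnum.{u} := (Cardinal.cantor _).le
  have hb' : ℵ₀ < 2 ^ bnum.{u} := lt_of_le_of_lt bnum_ge (Cardinal.cantor _)
  obtain ⟨L, iL, a0, a1, -, -, a4⟩ := neg_all.{u, v} K hK hne (κ := 2 ^ bnum.{u})
    (μ := 2 ^ bnum.{u}) hb'.le hb'.le (Or.inr (by rw [min_self, max_self]; exact ⟨hb, le_rfl⟩))
  refine ⟨L, iL, a0, a1, fun C _ f hf => ?_⟩
  rcases a4 C f hf with h5 | h5 | h5 | ⟨h5, -⟩ | ⟨h5, -⟩ | ⟨h5, h6⟩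
  · exact Or.inl h5
  · exact Or.inr (Or.inl h5)
  · exact Or.inr (Or.inr (Or.inl h5))
  · exact absurd h5 hb'.ne'
  · exact absurd h5 hb'.ne'
  · rcases h5 with h5 | h5
    · exact Or.inr (Or.inr (Or.inr ⟨h5, h6⟩))
    · rw [max_self] at h5
      exact absurd hb (not_le_of_gt h5)

theorem pos_free (K : (α : Type u) → [Lattice α] → Prop) (C : Type v) [LinearOrder C]
    (hC : E1 C ∨ E2 C ∨ E3 C ∨ ((∀ (L : Type u) [Lattice L], K L → IsModularLattice L) ∧
            ∃ g : ℤ → C, StrictMono g))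
    (L : Type u) [Lattice L] (hKL : K L) (hL : LocChainBdd L) : ∃ f : L → C, StrictMono f := by
  rcases hC with h5 | h5 | h5 | ⟨h5, h6⟩
  · exact exists_map_E1 hL h5
  · exact exists_map_E2 hL h5
  · exact exists_map_E3 hL h5
  · have := h5 L hKL
    exact exists_map_Z (hasIntMap_of_modular hL) h6

/-- sums of copies of the integers -/
theorem copies (K : (α : Type u) → [Lattice α] → Prop) (hK : PowerClosed K)
    (hne : ∃ (M : Type u) (_ : Lattice M), K M ∧ Nontrivial M) (J : Type v) [LinearOrder J] :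
    (∀ (L : Type u) [Lattice L], K L → LocChainBdd L → ∃ f : L → J ×ₗ ℤ, StrictMono f) ↔
      (Infinite J ∨ (Nonempty J ∧ ∀ (L : Type u) [Lattice L], K L → IsModularLattice L)) := by
  constructor
  · intro h
    rcases finite_or_infinite J with hJ | hJ
    swap
    · exact Or.inl hJ
    right
    constructor
    · obtain ⟨L, iL, a0, a1, a2⟩ := neg_free.{u, v} K hK hne
      obtain ⟨f, hf⟩ := h L a0 (SMZ.locChainBdd_of_finite a1)
      rcases a2 _ f hf with ⟨g, -⟩ | ⟨g, -⟩ | ⟨g, -⟩ | ⟨-, g, -⟩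
      · exact ⟨(ofLex (g (toLex (0, toDual 0)))).1⟩
      · exact ⟨(ofLex (g (toLex (toDual 0, 0)))).1⟩
      · exact ⟨(ofLex (g (toLex (Sum.inr (toLex (0, 0)))))).1⟩
      · exact ⟨(ofLex (g 0)).1⟩
    · by_contra hmod
      push Not at hmod
      obtain ⟨M, iM, hM, hmod⟩ := hmod
      obtain ⟨p⟩ := exists_pent hmod
      obtain ⟨I, φ, hI, hφ⟩ := SMZ.exists_unbounded.{u}
      have : Infinite I := Cardinal.infinite_iff.2 (unbounded_infinite φ hφ).le
      obtain ⟨f, hf⟩ := h (LL p (n1 φ))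
        (hK _ M _ hM (LL p (n1 φ)).subtype Subtype.val_injective)
        (SMZ.locChainBdd_of_finite (fun x y => finite_Icc p (n1 φ) x y))
      obtain ⟨k, g, hg⟩ := finite_lex (J := J)
      exact no_fin_LL p (n1 φ) hφ k (g ∘ f) (hg.comp hf)
  · rintro (hJ | ⟨⟨j⟩, hmod⟩) L _ hKL hL
    · exact infinite_enough hL J
    · have := hmod L hKL
      refine exists_map_Z (hasIntMap_of_modular hL) ⟨fun m => toLex (j, m), ?_⟩
      intro a b hab
      rw [Prod.Lex.toLex_lt_toLex]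
      exact Or.inr ⟨rfl, hab⟩

end Pool.Agent.Helper5_DF7
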